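import Mathlib

set_option autoImplicit false

/-!
Quadratic exponential sums: an upper bound by Weyl differencing and a lower bound near rational
points with odd denominator.
-/

namespace Pool.Agent.H639R3.W

open Finset Complex

/-- `e θ = exp (2 π i θ)` -/
noncomputable def e (θ : ℝ) : ℂ := Complex.exp (((2 * Real.pi * θ : ℝ) : ℂ) * Complex.I)

theorem norm_e (θ : ℝ) : ‖e θ‖ = 1 := by
  unfold e; exact Complex.norm_exp_ofReal_mul_I _

theorem e_add (θ φ : ℝ) : e (θ + φ) = e θ * e φ := by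
  unfold e
  rw [← Complex.exp_add]
  congr 1
  push_cast
  ring

theorem e_zero : e 0 = 1 := by unfold e; simp

theorem conj_e (θ : ℝ) : (starRingEnd ℂ) (e θ) = e (-θ) := by
  unfold e
  rw [← Complex.exp_conj]
  congr 1
  rw [map_mul, Complex.conj_ofReal, Complex.conj_I]
  push_cast
  ring

theorem e_int (n : ℤ) : e n = 1 := by
  unfold e
  rw [Complex.exp_eq_one_iff]
  exact ⟨n, by push_cast; ring⟩

theorem e_add_int (θ : ℝ) (n : ℤ) : e (θ + n) = e θ := by rw [e_add, e_int, mul_one]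

theorem e_nat_mul (θ : ℝ) (n : ℕ) : e (n * θ) = e θ ^ n := by
  induction n with
  | zero => simp [e_zero]
  | succ n ih =>
    rw [pow_succ, ← ih, ← e_add]
    congr 1
    push_cast
    ring

theorem norm_e_sub_one (θ : ℝ) : ‖e θ - 1‖ = 2 * |Real.sin (Real.pi * θ)| := by
  unfold e
  rw [mul_comm, Complex.norm_exp_I_mul_ofReal_sub_one, norm_mul]
  rw [Real.norm_eq_abs, Real.norm_eq_abs, abs_of_pos (by norm_num : (0 : ℝ) < 2)]
  congr 3
  ring

theorem norm_e_sub_e_le (θ φ : ℝ) : ‖e θ - e φ‖ ≤ 2 * Real.pi * |θ - φ| := by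
  have h1 : e θ - e φ = e φ * (e (θ - φ) - 1) := by
    rw [mul_sub, ← e_add, mul_one]
    congr 2
    ring
  rw [h1, norm_mul, norm_e, one_mul, norm_e_sub_one]
  have h2 : |Real.sin (Real.pi * (θ - φ))| ≤ |Real.pi * (θ - φ)| := Real.abs_sin_le_abs
  rw [abs_mul, abs_of_pos Real.pi_pos] at h2
  linarith

/-- geometric sums -/
theorem norm_geom_le (θ : ℝ) (n : ℕ) (h : Real.sin (Real.pi * θ) ≠ 0) :
    ‖∑ j ∈ range n, e θ ^ j‖ ≤ 1 / |Real.sin (Real.pi * θ)| := by
  have hpos : 0 < |Real.sin (Real.pi * θ)| := abs_pos.mpr h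
  have h1 := geom_sum_mul (e θ) n
  have h2 := congrArg norm h1
  rw [norm_mul, norm_e_sub_one] at h2
  have h3 : ‖e θ ^ n - 1‖ ≤ 2 := by
    calc ‖e θ ^ n - 1‖ ≤ ‖e θ ^ n‖ + ‖(1 : ℂ)‖ := norm_sub_le _ _
      _ = 2 := by rw [norm_pow, norm_e, one_pow, norm_one]; norm_num
  rw [le_div_iff₀ hpos]
  nlinarith

theorem norm_geom_le' (θ : ℝ) (n : ℕ) : ‖∑ j ∈ range n, e θ ^ j‖ ≤ n := by
  calc ‖∑ j ∈ range n, e θ ^ j‖ ≤ ∑ j ∈ range n, ‖e θ ^ j‖ := norm_sum_le _ _
    _ = n := by simp [norm_e]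

/-- Weyl differencing -/
theorem weyl_diff (f : ℕ → ℂ) (N : ℕ) (hf : ∀ n, ‖f n‖ = 1) :
    ‖∑ n ∈ range N, f n‖ ^ 2 ≤ N +
      2 * ∑ h ∈ Ico 1 N, ‖∑ n ∈ range (N - h), f (n + h) * (starRingEnd ℂ) (f n)‖ := by
  set S := ∑ n ∈ range N, f n with hS
  have h1 : S * (starRingEnd ℂ) S = ∑ q ∈ range N ×ˢ range N, f q.1 * (starRingEnd ℂ) (f q.2) := by
    rw [hS, map_sum, Finset.sum_mul_sum, Finset.sum_product]
  have hD : ∑ q ∈ (range N ×ˢ range N).filter (fun q => q.1 = q.2),
      f q.1 * (starRingEnd ℂ) (f q.2) = N := by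
    have : ∑ q ∈ (range N ×ˢ range N).filter (fun q => q.1 = q.2),
      f q.1 * (starRingEnd ℂ) (f q.2) = ∑ n ∈ range N, f n * (starRingEnd ℂ) (f n) := by
      symm
      refine Finset.sum_bij' (fun n _ => (n, n)) (fun q _ => q.1) ?_ ?_ ?_ ?_ ?_
      · intro n hn; simpa using hn
      · intro q hq
        simp only [mem_filter, mem_product] at hq
        exact hq.1.1
      · intro n hn; rfl
      · rintro ⟨a, b⟩ hq
        simp only [mem_filter, mem_product] at hq
        obtain ⟨-, rfl⟩ := hq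
        rfl
      · intro n hn; rfl
    rw [this]
    have h2 : ∀ n ∈ range N, f n * (starRingEnd ℂ) (f n) = 1 := by
      intro n _
      rw [Complex.mul_conj, Complex.normSq_eq_norm_sq, hf]
      simp
    rw [Finset.sum_congr rfl h2]
    simp
  set U := ∑ q ∈ (range N ×ˢ range N).filter (fun q => q.2 < q.1),
      f q.1 * (starRingEnd ℂ) (f q.2) with hU
  have hL : ∑ q ∈ (range N ×ˢ range N).filter (fun q => q.1 < q.2),
      f q.1 * (starRingEnd ℂ) (f q.2) = (starRingEnd ℂ) U := by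
    rw [hU, map_sum]
    refine Finset.sum_bij' (fun q _ => (q.2, q.1)) (fun q _ => (q.2, q.1)) ?_ ?_ ?_ ?_ ?_
    · rintro ⟨a, b⟩ hq
      simp only [mem_filter, mem_product] at hq ⊢
      exact ⟨⟨hq.1.2, hq.1.1⟩, hq.2⟩
    · rintro ⟨a, b⟩ hq
      simp only [mem_filter, mem_product] at hq ⊢
      exact ⟨⟨hq.1.2, hq.1.1⟩, hq.2⟩
    · intro q _; rfl
    · intro q _; rfl
    · rintro ⟨a, b⟩ _
      simp only [map_mul, Complex.conj_conj]
      ring
  have hsplit : S * (starRingEnd ℂ) S = N + U + (starRingEnd ℂ) U := by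
    rw [h1, ← hL, ← hD, hU, ← Finset.sum_filter_add_sum_filter_not (range N ×ˢ range N)
      (fun q => q.1 = q.2), add_assoc]
    congr 1
    rw [← Finset.sum_filter_add_sum_filter_not ((range N ×ˢ range N).filter
      (fun q => ¬ q.1 = q.2)) (fun q => q.2 < q.1), filter_filter, filter_filter]
    congr 1
    · apply Finset.sum_congr _ fun _ _ => rfl
      ext q
      simp only [mem_filter]
      constructor
      · rintro ⟨h1, h2, h3⟩; exact ⟨h1, h3⟩
      · rintro ⟨h1, h3⟩; exact ⟨h1, by omega, h3⟩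
    · apply Finset.sum_congr _ fun _ _ => rfl
      ext q
      simp only [mem_filter]
      constructor
      · rintro ⟨h1, h2, h3⟩; exact ⟨h1, by omega⟩
      · rintro ⟨h1, h3⟩; exact ⟨h1, by omega, by omega⟩
  have hUeq : U = ∑ h ∈ Ico 1 N, ∑ n ∈ range (N - h), f (n + h) * (starRingEnd ℂ) (f n) := by
    rw [hU, Finset.sum_sigma']
    refine Finset.sum_bij' (fun q _ => ⟨q.1 - q.2, q.2⟩) (fun s _ => (s.2 + s.1, s.2)) ?_ ?_ ?_ ?_ ?_
    · rintro ⟨a, b⟩ hq
      simp only [mem_filter, mem_product, mem_range, mem_sigma, mem_Ico] at hq ⊢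
      omega
    · rintro ⟨a, b⟩ hq
      simp only [mem_filter, mem_product, mem_range, mem_sigma, mem_Ico] at hq ⊢
      omega
    · rintro ⟨a, b⟩ hq
      simp only [mem_filter, mem_product, mem_range] at hq
      simp only [Prod.mk.injEq, and_true]
      omega
    · rintro ⟨a, b⟩ hq
      simp only [mem_sigma, mem_Ico, mem_range] at hq
      simp
    · rintro ⟨a, b⟩ hq
      simp only [mem_filter, mem_product, mem_range] at hq
      have : b + (a - b) = a := by omega
      simp only [this]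
  have hn : ‖S‖ ^ 2 = ‖S * (starRingEnd ℂ) S‖ := by
    rw [norm_mul, RCLike.norm_conj, sq]
  rw [hn, hsplit]
  have hUn : ‖U‖ ≤ ∑ h ∈ Ico 1 N, ‖∑ n ∈ range (N - h), f (n + h) * (starRingEnd ℂ) (f n)‖ := by
    rw [hUeq]; exact norm_sum_le _ _
  calc ‖(N : ℂ) + U + (starRingEnd ℂ) U‖ ≤ ‖(N : ℂ)‖ + ‖U‖ + ‖(starRingEnd ℂ) U‖ :=
        norm_add₃_le
    _ = N + 2 * ‖U‖ := by rw [RCLike.norm_conj, Complex.norm_natCast]; ring
    _ ≤ _ := by linarith

/-- the lower bound for the sine near `s / q` -/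
theorem sin_lower (q s : ℕ) (hs : 0 < s) (hsq : s < q) (δ : ℝ) (hδ : |δ| ≤ 1 / (4 * q)) :
    Real.sin (Real.pi * (s / q + δ)) ≠ 0 ∧
      1 / |Real.sin (Real.pi * (s / q + δ))| ≤ (q : ℝ) / s + (q : ℝ) / ((q : ℝ) - s) := by
  have hq : (0 : ℝ) < q := by exact_mod_cast (hs.trans hsq)
  have hs' : (1 : ℝ) ≤ s := by exact_mod_cast hs
  have hsq' : (s : ℝ) + 1 ≤ q := by exact_mod_cast hsq
  have hpi := Real.pi_pos
  rw [abs_le] at hδ
  obtain ⟨hδ1, hδ2⟩ := hδ
  have e1 : 1 / (4 * (q : ℝ)) = (1 / 4) * (1 / q) := by field_simp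
  have e2 : (s : ℝ) / q = s * (1 / q) := by ring
  have e3 : (q : ℝ) * (1 / q) = 1 := by field_simp
  set w : ℝ := 1 / q with hw
  have hw0 : 0 < w := by rw [hw]; positivity
  rw [e1] at hδ1 hδ2
  set y : ℝ := (s : ℝ) / q + δ with hy
  have hy1 : (3 / 4) * (s * w) ≤ y := by
    rw [hy, e2]
    nlinarith
  have hy2 : y ≤ 1 - (3 / 4) * ((q - s) * w) := by
    rw [hy, e2]
    nlinarith
  have hA : 0 < s * w := by positivity
  have hB : 0 < (q - s) * w := mul_pos (by linarith) hw0
  have hq1 : 0 < (q : ℝ) / s := by positivity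
  have hq2 : 0 < (q : ℝ) / ((q : ℝ) - s) := div_pos hq (by linarith)
  by_cases hhalf : y ≤ 1 / 2
  · have h1 : 2 / Real.pi * (Real.pi * y) ≤ Real.sin (Real.pi * y) :=
      Real.mul_le_sin (by nlinarith) (by nlinarith)
    have h2 : 2 / Real.pi * (Real.pi * y) = 2 * y := by field_simp
    rw [h2] at h1
    have h3 : s * w ≤ Real.sin (Real.pi * y) := by linarith
    have h4 : 0 < Real.sin (Real.pi * y) := by linarith
    refine ⟨h4.ne', ?_⟩
    rw [abs_of_pos h4]
    have h5 : 1 / Real.sin (Real.pi * y) ≤ 1 / (s * w) := one_div_le_one_div_of_le hA h3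
    have h6 : 1 / (s * w) = (q : ℝ) / s := by rw [hw]; field_simp
    linarith
  · have h1 : 2 / Real.pi * (Real.pi * (1 - y)) ≤ Real.sin (Real.pi * (1 - y)) :=
      Real.mul_le_sin (by nlinarith) (by nlinarith)
    have h2 : 2 / Real.pi * (Real.pi * (1 - y)) = 2 * (1 - y) := by field_simp
    have h2' : Real.sin (Real.pi * (1 - y)) = Real.sin (Real.pi * y) := by
      rw [mul_sub, mul_one, Real.sin_pi_sub]
    rw [h2, h2'] at h1
    have h3 : (q - s) * w ≤ Real.sin (Real.pi * y) := by linarith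
    have h4 : 0 < Real.sin (Real.pi * y) := by linarith
    refine ⟨h4.ne', ?_⟩
    rw [abs_of_pos h4]
    have h5 : 1 / Real.sin (Real.pi * y) ≤ 1 / ((q - s) * w) := one_div_le_one_div_of_le hB h3
    have h6 : 1 / (((q : ℝ) - s) * w) = (q : ℝ) / ((q : ℝ) - s) := by
      have : (q : ℝ) - s ≠ 0 := by linarith
      rw [hw]; field_simp
    linarith

/-- `h ↦ (2 a h mod q)` -/
theorem fiber_count (q N : ℕ) [NeZero q] (r : ZMod q) :
    ((Ico 1 N).filter fun h : ℕ => (h : ZMod q) = r).card ≤ N / q + 1 := by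
  classical
  rw [← Finset.card_range (N / q + 1)]
  apply Finset.card_le_card_of_injOn (fun h : ℕ => h / q)
  · intro h hh
    simp only [coe_filter, mem_Ico, Set.mem_ofPred_eq] at hh
    simp only [coe_range, Set.mem_Iio]
    have := Nat.div_le_div_right (c := q) hh.1.2.le
    omega
  · intro h hh h' hh' heq
    simp only [coe_filter, mem_Ico, Set.mem_ofPred_eq] at hh hh'
    have h1 : (h : ZMod q) = (h' : ZMod q) := by rw [hh.2, hh'.2]
    have h2 : h ≡ h' [MOD q] := (ZMod.natCast_eq_natCast_iff _ _ _).mp h1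
    simp only at heq
    rw [← Nat.div_add_mod h q, ← Nat.div_add_mod h' q, heq, h2]

theorem sum_F_le (q : ℕ) [NeZero q] :
    ∑ r ∈ (univ : Finset (ZMod q)).filter (fun r => r ≠ 0),
      ((q : ℝ) / r.val + (q : ℝ) / ((q : ℝ) - r.val)) ≤ 2 * q * (1 + Real.log q) := by
  classical
  have hq : 0 < q := Nat.pos_of_ne_zero (NeZero.ne q)
  have h1 : ∑ r ∈ (univ : Finset (ZMod q)).filter (fun r => r ≠ 0),
      ((q : ℝ) / r.val + (q : ℝ) / ((q : ℝ) - r.val)) =
      ∑ s ∈ Ico 1 q, ((q : ℝ) / s + (q : ℝ) / ((q : ℝ) - s)) := by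
    refine Finset.sum_bij' (fun r _ => r.val) (fun s _ => (s : ZMod q)) ?_ ?_ ?_ ?_ ?_
    · intro r hr
      simp only [mem_filter, mem_univ, true_and] at hr
      rw [mem_Ico]
      have h2 : r.val ≠ 0 := by rwa [Ne, ZMod.val_eq_zero]
      exact ⟨by omega, ZMod.val_lt r⟩
    · intro s hs
      rw [mem_Ico] at hs
      simp only [mem_filter, mem_univ, true_and]
      intro h
      rw [ZMod.natCast_eq_zero_iff] at h
      exact absurd (Nat.le_of_dvd (by omega) h) (by omega)
    · intro r _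
      simp
    · intro s hs
      rw [mem_Ico] at hs
      exact ZMod.val_cast_of_lt hs.2
    · intro r _; rfl
  rw [h1, Finset.sum_add_distrib]
  have h2 : ∑ s ∈ Ico 1 q, (q : ℝ) / ((q : ℝ) - s) = ∑ s ∈ Ico 1 q, (q : ℝ) / s := by
    refine Finset.sum_bij' (fun s _ => q - s) (fun s _ => q - s) ?_ ?_ ?_ ?_ ?_
    · intro s hs; rw [mem_Ico] at hs ⊢; omega
    · intro s hs; rw [mem_Ico] at hs ⊢; omega
    · intro s hs; rw [mem_Ico] at hs; omega
    · intro s hs; rw [mem_Ico] at hs; omega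
    · intro s hs
      rw [mem_Ico] at hs
      rw [Nat.cast_sub hs.2.le]
  rw [h2]
  have h3 : ∑ s ∈ Ico 1 q, (q : ℝ) / s ≤ q * (1 + Real.log q) := by
    have h4 := harmonic_le_one_add_log q
    have h5 : ∑ s ∈ Ico 1 q, (q : ℝ) / s ≤ q * ∑ s ∈ Ico 1 (q + 1), (s : ℝ)⁻¹ := by
      rw [Finset.mul_sum]
      refine (Finset.sum_le_sum_of_subset_of_nonneg
        (Finset.Ico_subset_Ico_right (Nat.le_succ q)) ?_).trans_eq ?_
      · intro s _ _; positivity
      · exact Finset.sum_congr rfl fun s _ => div_eq_mul_inv _ _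
    have h6 : (∑ s ∈ Ico 1 (q + 1), (s : ℝ)⁻¹) = (harmonic q : ℝ) := by
      rw [harmonic_eq_sum_Icc]
      push_cast
      apply Finset.sum_congr _ fun _ _ => rfl
      ext s; simp
    rw [h6] at h5
    exact h5.trans (mul_le_mul_of_nonneg_left h4 (Nat.cast_nonneg q))
  linarith

/-- the bound by Weyl differencing -/
theorem weyl_bound (q : ℕ) (hq : Odd q) (a : ℤ) (ha : IsCoprime a (q : ℤ)) (x₁ β : ℝ) (N : ℕ)
    (hβ : ∀ h : ℕ, h < N → |2 * β * h| ≤ 1 / (4 * q)) :
    ‖∑ n ∈ range N, e (x₁ * (n + 1) + ((a : ℝ) / q + β) * (n + 1) ^ 2)‖ ^ 2 ≤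
      N + 2 * ((N / q : ℝ) * N + (N / q + 1) * (2 * q * (1 + Real.log q))) := by
  classical
  have hq0 : 0 < q := hq.pos
  have hNZ : NeZero q := ⟨hq0.ne'⟩
  have hqR : (0 : ℝ) < q := by exact_mod_cast hq0
  set ξ : ℝ := (a : ℝ) / q + β with hξ
  set f : ℕ → ℂ := fun n => e (x₁ * (n + 1) + ξ * (n + 1) ^ 2) with hf
  refine (weyl_diff f N fun n => norm_e _).trans ?_
  -- the inner sums
  have hinner : ∀ h : ℕ, ‖∑ n ∈ range (N - h), f (n + h) * (starRingEnd ℂ) (f n)‖ =
      ‖∑ n ∈ range (N - h), e (2 * ξ * h) ^ n‖ := by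
    intro h
    have h1 : ∀ n, f (n + h) * (starRingEnd ℂ) (f n) =
        e (x₁ * h + ξ * h ^ 2 + 2 * ξ * h) * e (2 * ξ * h) ^ n := by
      intro n
      rw [hf]
      simp only
      rw [conj_e, ← e_add, ← e_nat_mul, ← e_add]
      congr 1
      push_cast
      ring
    simp_rw [h1]
    rw [← Finset.mul_sum, norm_mul, norm_e, one_mul]
  -- the residue
  set s : ℕ → ZMod q := fun h => ((2 * a * h : ℤ) : ZMod q) with hs
  have hunit : IsUnit ((2 * a : ℤ) : ZMod q) := by
    have h2 : IsCoprime (2 * a) (q : ℤ) := by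
      apply IsCoprime.mul_left _ ha
      have := (Nat.coprime_two_left (n := q)).mpr hq
      exact_mod_cast Nat.isCoprime_iff_coprime.mpr this
    obtain ⟨u, v, huv⟩ := h2
    rw [isUnit_iff_exists_inv']
    refine ⟨(u : ZMod q), ?_⟩
    have := congrArg (fun z : ℤ => (z : ZMod q)) huv
    push_cast at this ⊢
    simpa using this
  have hb1 : ∀ h : ℕ, h < N → s h ≠ 0 →
      ‖∑ n ∈ range (N - h), f (n + h) * (starRingEnd ℂ) (f n)‖ ≤
        (q : ℝ) / (s h).val + (q : ℝ) / ((q : ℝ) - (s h).val) := by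
    intro h hh hsh
    rw [hinner]
    -- 2 a h = q t + s
    obtain ⟨t, ht⟩ : ∃ t : ℤ, 2 * a * h = q * t + (s h).val := by
      have h1 : ((2 * a * h - (s h).val : ℤ) : ZMod q) = 0 := by
        rw [Int.cast_sub, hs]
        simp
      rw [ZMod.intCast_zmod_eq_zero_iff_dvd] at h1
      obtain ⟨t, ht⟩ := h1
      exact ⟨t, by linarith⟩
    have hs0 : 0 < (s h).val := Nat.pos_of_ne_zero (by rwa [Ne, ZMod.val_eq_zero])
    have hslt : (s h).val < q := ZMod.val_lt _
    have h2 : e (2 * ξ * h) = e (((s h).val : ℝ) / q + 2 * β * h) := by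
      rw [← e_add_int (((s h).val : ℝ) / q + 2 * β * h) t]
      congr 1
      have ht' : (2 * a * h : ℝ) = q * t + (s h).val := by exact_mod_cast ht
      rw [hξ]
      field_simp
      linear_combination ht'
    rw [h2]
    obtain ⟨h3, h4⟩ := sin_lower q (s h).val hs0 hslt (2 * β * h) (hβ h hh)
    exact (norm_geom_le _ _ h3).trans h4
  have hb2 : ∀ h : ℕ, ‖∑ n ∈ range (N - h), f (n + h) * (starRingEnd ℂ) (f n)‖ ≤ N := by
    intro h
    rw [hinner]
    refine (norm_geom_le' _ _).trans ?_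
    exact_mod_cast Nat.sub_le N h
  have hs_zero : ∀ h : ℕ, s h = 0 ↔ (h : ZMod q) = 0 := by
    intro h
    rw [hs]
    simp only
    push_cast
    have hu : IsUnit ((2 : ZMod q) * (a : ZMod q)) := by simpa using hunit
    exact hu.mul_right_eq_zero
  set F : ZMod q → ℝ := fun r => (q : ℝ) / r.val + (q : ℝ) / ((q : ℝ) - r.val) with hF
  have hFnn : ∀ r, 0 ≤ F r := by
    intro r
    have : (r.val : ℝ) < q := by exact_mod_cast ZMod.val_lt r
    have h2 : 0 ≤ (q : ℝ) / r.val := by positivity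
    have h3 : 0 ≤ (q : ℝ) / ((q : ℝ) - r.val) := div_nonneg hqR.le (by linarith)
    exact add_nonneg h2 h3
  have hfloor : ((N / q : ℕ) : ℝ) ≤ (N : ℝ) / q := Nat.cast_div_le
  have hmain : ∑ h ∈ Ico 1 N, ‖∑ n ∈ range (N - h), f (n + h) * (starRingEnd ℂ) (f n)‖ ≤
      (N / q : ℝ) * N + (N / q + 1) * (2 * q * (1 + Real.log q)) := by
    rw [← Finset.sum_filter_add_sum_filter_not (Ico 1 N) (fun h : ℕ => (h : ZMod q) = 0)]
    apply add_le_add
    · -- multiples of q
      have hcard : ((Ico 1 N).filter fun h : ℕ => (h : ZMod q) = 0).card ≤ N / q := by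
        have hc : (Icc 1 (N / q)).card = N / q := by simp
        rw [← hc]
        apply Finset.card_le_card_of_injOn (fun h : ℕ => h / q)
        · intro h hh
          simp only [coe_filter, mem_Ico, Set.mem_ofPred_eq] at hh
          simp only [coe_Icc, Set.mem_Icc]
          obtain ⟨⟨h1, h2⟩, h3⟩ := hh
          rw [ZMod.natCast_eq_zero_iff] at h3
          exact ⟨Nat.div_pos (Nat.le_of_dvd h1 h3) hq0, Nat.div_le_div_right h2.le⟩
        · intro h hh h' hh' heq
          simp only [coe_filter, mem_Ico, Set.mem_ofPred_eq] at hh hh'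
          obtain ⟨⟨h1, h2⟩, h3⟩ := hh
          obtain ⟨⟨h1', h2'⟩, h3'⟩ := hh'
          rw [ZMod.natCast_eq_zero_iff] at h3 h3'
          simp only at heq
          rw [← Nat.div_mul_cancel h3, ← Nat.div_mul_cancel h3', heq]
      calc ∑ h ∈ (Ico 1 N).filter (fun h : ℕ => (h : ZMod q) = 0),
            ‖∑ n ∈ range (N - h), f (n + h) * (starRingEnd ℂ) (f n)‖
          ≤ ∑ h ∈ (Ico 1 N).filter (fun h : ℕ => (h : ZMod q) = 0), (N : ℝ) :=
            Finset.sum_le_sum fun h _ => hb2 h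
        _ = ((Ico 1 N).filter fun h : ℕ => (h : ZMod q) = 0).card * (N : ℝ) := by
            rw [Finset.sum_const, nsmul_eq_mul]
        _ ≤ (N / q : ℝ) * N := by
            have : (((Ico 1 N).filter fun h : ℕ => (h : ZMod q) = 0).card : ℝ) ≤ (N : ℝ) / q :=
              le_trans (by exact_mod_cast hcard) hfloor
            gcongr
    · calc ∑ h ∈ (Ico 1 N).filter (fun h : ℕ => ¬ (h : ZMod q) = 0),
            ‖∑ n ∈ range (N - h), f (n + h) * (starRingEnd ℂ) (f n)‖
          ≤ ∑ h ∈ (Ico 1 N).filter (fun h : ℕ => ¬ (h : ZMod q) = 0), F (s h) := by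
            refine Finset.sum_le_sum fun h hh => ?_
            rw [mem_filter, mem_Ico] at hh
            exact hb1 h hh.1.2 (fun h0 => hh.2 ((hs_zero h).mp h0))
        _ = ∑ r ∈ (univ : Finset (ZMod q)).filter (fun r => r ≠ 0),
              ∑ h ∈ (Ico 1 N).filter (fun h : ℕ => (h : ZMod q) = r), F (s h) := by
            rw [← Finset.sum_fiberwise_of_maps_to
              (s := (Ico 1 N).filter (fun h : ℕ => ¬ (h : ZMod q) = 0))
              (t := (univ : Finset (ZMod q)).filter (fun r => r ≠ 0))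
              (g := fun h : ℕ => (h : ZMod q))]
            · refine Finset.sum_congr rfl fun r hr => ?_
              rw [filter_filter]
              apply Finset.sum_congr _ fun _ _ => rfl
              ext h
              simp only [mem_filter, mem_univ, true_and] at hr ⊢
              constructor
              · rintro ⟨h1, h2, h3⟩; exact ⟨h1, h3⟩
              · rintro ⟨h1, h3⟩; exact ⟨h1, by rw [h3]; exact hr, h3⟩
            · intro h hh
              simp only [mem_filter, mem_univ, true_and] at hh ⊢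
              exact hh.2
        _ ≤ ∑ r ∈ (univ : Finset (ZMod q)).filter (fun r => r ≠ 0),
              ((N : ℝ) / q + 1) * F (((2 * a : ℤ) : ZMod q) * r) := by
            refine Finset.sum_le_sum fun r _ => ?_
            have h1 : ∀ h ∈ (Ico 1 N).filter (fun h : ℕ => (h : ZMod q) = r),
                F (s h) = F (((2 * a : ℤ) : ZMod q) * r) := by
              intro h hh
              rw [mem_filter] at hh
              rw [hs, ← hh.2]
              simp
            rw [Finset.sum_congr rfl h1, Finset.sum_const, nsmul_eq_mul]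
            have h2 : (((Ico 1 N).filter fun h : ℕ => (h : ZMod q) = r).card : ℝ) ≤
                (N : ℝ) / q + 1 := by
              have := fiber_count q N r
              have h3 : (((Ico 1 N).filter fun h : ℕ => (h : ZMod q) = r).card : ℝ) ≤
                ((N / q + 1 : ℕ) : ℝ) := by exact_mod_cast this
              push_cast at h3
              linarith
            exact mul_le_mul_of_nonneg_right h2 (hFnn _)
        _ = ((N : ℝ) / q + 1) * ∑ r ∈ (univ : Finset (ZMod q)).filter (fun r => r ≠ 0), F r := by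
            rw [← Finset.mul_sum]
            congr 1
            obtain ⟨u, hu⟩ := hunit
            refine Finset.sum_bij' (fun r _ => (u : ZMod q) * r)
              (fun r _ => ((u⁻¹ : (ZMod q)ˣ) : ZMod q) * r) ?_ ?_ ?_ ?_ ?_
            · intro r hr
              simp only [mem_filter, mem_univ, true_and] at hr ⊢
              exact fun h0 => hr ((u.isUnit.mul_right_eq_zero).mp h0)
            · intro r hr
              simp only [mem_filter, mem_univ, true_and] at hr ⊢
              exact fun h0 => hr ((u⁻¹.isUnit.mul_right_eq_zero).mp h0)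
            · intro r _; simp
            · intro r _; simp
            · intro r _; rw [hu]
        _ ≤ _ := by
            apply mul_le_mul_of_nonneg_left (sum_F_le q)
            positivity
  linarith

end Pool.Agent.H639R3.W
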