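import Pool.Agent.H639R3.W.Exp

set_option autoImplicit false

/-!
Complete and incomplete Gauss sums with odd denominator, and the lower bound for quadratic
exponential sums close to a rational point.
-/

namespace Pool.Agent.H639R3.W

open Finset Complex

/-- the summand as a function of the residue class -/
noncomputable def gs (q : ℕ) [NeZero q] (a b : ℤ) (x : ZMod q) : ℂ :=
  ZMod.stdAddChar ((a : ZMod q) * (x + 1) ^ 2 + (b : ZMod q) * (x + 1))

theorem gs_natCast (q : ℕ) [NeZero q] (a b : ℤ) (n : ℕ) :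
    gs q a b (n : ZMod q) = e ((b : ℝ) / q * (n + 1) + (a : ℝ) / q * (n + 1) ^ 2) := by
  unfold gs e
  have h1 : ((a : ZMod q) * ((n : ZMod q) + 1) ^ 2 + (b : ZMod q) * ((n : ZMod q) + 1)) =
      ((a * (n + 1) ^ 2 + b * (n + 1) : ℤ) : ZMod q) := by push_cast; ring
  rw [h1, ZMod.stdAddChar_coe]
  congr 1
  push_cast
  field_simp
  ring

theorem norm_gs (q : ℕ) [NeZero q] (a b : ℤ) (x : ZMod q) : ‖gs q a b x‖ = 1 := by
  have : x = ((x.val : ℕ) : ZMod q) := by simp
  rw [this, gs_natCast, norm_e]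

/-- the absolute value of the complete sum -/
theorem norm_gauss (q : ℕ) [NeZero q] (hq : Odd q) (a b : ℤ) (ha : IsCoprime a (q : ℤ)) :
    ‖∑ x : ZMod q, gs q a b x‖ = Real.sqrt q := by
  classical
  have hunit : IsUnit ((2 * a : ℤ) : ZMod q) := by
    have h2 : IsCoprime (2 * a) (q : ℤ) := by
      apply IsCoprime.mul_left _ ha
      have := (Nat.coprime_two_left (n := q)).mpr hq
      exact_mod_cast Nat.isCoprime_iff_coprime.mpr this
    obtain ⟨u, v, huv⟩ := h2
    rw [isUnit_iff_exists_inv']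
    refine ⟨(u : ZMod q), ?_⟩
    have := congrArg (fun z : ℤ => (z : ZMod q)) huv
    push_cast at this ⊢
    simpa using this
  set G := ∑ x : ZMod q, gs q a b x with hG
  have hshift : G = ∑ x : ZMod q, (ZMod.stdAddChar ((a : ZMod q) * x ^ 2 + (b : ZMod q) * x) : ℂ) := by
    rw [hG]
    exact Fintype.sum_equiv (Equiv.addRight (1 : ZMod q)) _ _ fun x => rfl
  have hprim := ZMod.isPrimitive_stdAddChar q
  have key : G * (starRingEnd ℂ) G = q := by
    rw [hshift, map_sum, Finset.sum_mul_sum]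
    have h1 : ∀ x y : ZMod q, (ZMod.stdAddChar ((a : ZMod q) * x ^ 2 + (b : ZMod q) * x) : ℂ) *
        (starRingEnd ℂ) (ZMod.stdAddChar ((a : ZMod q) * y ^ 2 + (b : ZMod q) * y) : ℂ) =
        (ZMod.stdAddChar (((a : ZMod q) * x ^ 2 + (b : ZMod q) * x) -
          ((a : ZMod q) * y ^ 2 + (b : ZMod q) * y)) : ℂ) := by
      intro x y
      rw [← AddChar.map_neg_eq_conj, ← AddChar.map_add_eq_mul, ← sub_eq_add_neg]
    simp_rw [h1]
    rw [Finset.sum_comm]
    have h2 : ∀ y : ZMod q, ∑ x : ZMod q, (ZMod.stdAddChar (((a : ZMod q) * x ^ 2 +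
        (b : ZMod q) * x) - ((a : ZMod q) * y ^ 2 + (b : ZMod q) * y)) : ℂ) =
        ∑ h : ZMod q, (ZMod.stdAddChar ((a : ZMod q) * h ^ 2 + (b : ZMod q) * h) : ℂ) *
          (ZMod.stdAddChar (y * (((2 * a : ℤ) : ZMod q) * h)) : ℂ) := by
      intro y
      refine (Fintype.sum_equiv (Equiv.addRight y) _ _ fun h => ?_).symm
      rw [← AddChar.map_add_eq_mul]
      congr 1
      simp only [Equiv.coe_addRight]
      push_cast
      ring
    simp_rw [h2]
    rw [Finset.sum_comm]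
    have h3 : ∀ h : ZMod q, ∑ y : ZMod q, (ZMod.stdAddChar ((a : ZMod q) * h ^ 2 +
        (b : ZMod q) * h) : ℂ) * (ZMod.stdAddChar (y * (((2 * a : ℤ) : ZMod q) * h)) : ℂ) =
        if h = 0 then (q : ℂ) else 0 := by
      intro h
      rw [← Finset.mul_sum, AddChar.sum_mulShift _ hprim]
      by_cases hh : h = 0
      · subst hh
        simp [ZMod.card]
      · rw [if_neg hh, if_neg]
        · simp
        · intro h0
          exact hh ((hunit.mul_right_eq_zero).mp h0)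
    simp_rw [h3]
    simp
  have hn : ‖G‖ ^ 2 = q := by
    have : ‖G * (starRingEnd ℂ) G‖ = q := by rw [key, Complex.norm_natCast]
    rw [norm_mul, RCLike.norm_conj] at this
    rw [sq]; exact this
  rw [← hn, Real.sqrt_sq (norm_nonneg _)]

section incomplete

variable (q : ℕ) [NeZero q] (a b : ℤ)

/-- incomplete sums -/
noncomputable def inc (n : ℕ) : ℂ := ∑ m ∈ range n, gs q a b (m : ZMod q)

theorem sum_period (n : ℕ) :
    ∑ m ∈ range q, gs q a b ((n + m : ℕ) : ZMod q) = ∑ x : ZMod q, gs q a b x := by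
  have h1 : ∀ F : ZMod q → ℂ, ∑ m ∈ range q, F (m : ZMod q) = ∑ x : ZMod q, F x := by
    intro F
    refine Finset.sum_bij' (fun m _ => (m : ZMod q)) (fun x _ => x.val) ?_ ?_ ?_ ?_ ?_
    · intro m _; exact mem_univ _
    · intro x _; exact mem_range.mpr (ZMod.val_lt x)
    · intro m hm; exact ZMod.val_cast_of_lt (mem_range.mp hm)
    · intro x _; simp
    · intro m _; rfl
  have h2 := h1 fun x => gs q a b ((n : ZMod q) + x)
  push_cast
  rw [h2]
  exact Fintype.sum_equiv (Equiv.addLeft (n : ZMod q)) _ _ fun x => rfl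

theorem inc_add_period (n : ℕ) : inc q a b (n + q) = inc q a b n + ∑ x : ZMod q, gs q a b x := by
  unfold inc
  rw [Finset.sum_range_add, sum_period]

theorem inc_mul (j r : ℕ) :
    inc q a b (q * j + r) = j * (∑ x : ZMod q, gs q a b x) + inc q a b r := by
  induction j with
  | zero => simp
  | succ j ih =>
    have : q * (j + 1) + r = (q * j + r) + q := by ring
    rw [this, inc_add_period, ih]
    push_cast
    ring

theorem norm_inc_small (hq : Odd q) (ha : IsCoprime a (q : ℤ)) (r : ℕ) (hr : r ≤ q) :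
    ‖inc q a b r‖ ^ 2 ≤ 11 * (q * (1 + Real.log q)) := by
  have hq0 : 0 < q := hq.pos
  have hqR : (1 : ℝ) ≤ q := by exact_mod_cast hq0
  have h1 := weyl_bound q hq a ha ((b : ℝ) / q) 0 r (by
    intro h _
    simp)
  have h2 : inc q a b r = ∑ n ∈ range r, e ((b : ℝ) / q * (n + 1) + ((a : ℝ) / q + 0) * (n + 1) ^ 2) := by
    unfold inc
    refine Finset.sum_congr rfl fun n _ => ?_
    rw [gs_natCast, add_zero]
  rw [h2]
  refine h1.trans ?_
  have hrR : (r : ℝ) ≤ q := by exact_mod_cast hr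
  have hr0 : (0 : ℝ) ≤ r := Nat.cast_nonneg r
  have h3 : (r : ℝ) / q ≤ 1 := (div_le_one (by linarith)).mpr hrR
  have h3' : 0 ≤ (r : ℝ) / q := by positivity
  have hlog : 0 ≤ Real.log q := Real.log_nonneg hqR
  have h4 : (r / q : ℝ) * r ≤ q := by nlinarith
  have h5 : (r / q + 1 : ℝ) * (2 * q * (1 + Real.log q)) ≤ 2 * (2 * q * (1 + Real.log q)) := by
    apply mul_le_mul_of_nonneg_right (by linarith)
    positivity
  nlinarith [mul_nonneg (by linarith : (0 : ℝ) ≤ q) hlog]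

theorem norm_inc (hq : Odd q) (ha : IsCoprime a (q : ℤ)) (M n : ℕ)
    (hM : 11 * (1 + Real.log q) ≤ (M : ℝ) ^ 2) (hn : n ≤ q * M) :
    ‖inc q a b n‖ ≤ 2 * (M * Real.sqrt q) := by
  have hq0 : 0 < q := hq.pos
  have hdecomp : n = q * (n / q) + n % q := (Nat.div_add_mod n q).symm
  have h1 : ‖inc q a b n‖ ≤ (n / q : ℕ) * Real.sqrt q + ‖inc q a b (n % q)‖ := by
    conv_lhs => rw [hdecomp, inc_mul]
    refine (norm_add_le _ _).trans ?_
    rw [norm_mul, norm_gauss q hq a b ha, Complex.norm_natCast]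
  have h2 : ((n / q : ℕ) : ℝ) ≤ M := by
    have : n / q ≤ M := Nat.div_le_of_le_mul hn
    exact_mod_cast this
  have h3 : ‖inc q a b (n % q)‖ ≤ M * Real.sqrt q := by
    have h4 := norm_inc_small q a b hq ha (n % q) (Nat.mod_lt _ hq0).le
    have h5 : ‖inc q a b (n % q)‖ ^ 2 ≤ (M * Real.sqrt q) ^ 2 := by
      rw [mul_pow, Real.sq_sqrt (Nat.cast_nonneg q)]
      have hqR : (0 : ℝ) ≤ q := Nat.cast_nonneg q
      nlinarith
    exact le_of_sq_le_sq h5 (by positivity)
  have h6 := mul_le_mul_of_nonneg_right h2 (Real.sqrt_nonneg (q : ℝ))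
  linarith

end incomplete

/-- summation by parts -/
theorem abel (g w : ℕ → ℂ) (N : ℕ) :
    ∑ n ∈ range N, g n * w n = (∑ n ∈ range N, g n) * w N -
      ∑ n ∈ range N, (∑ m ∈ range (n + 1), g m) * (w (n + 1) - w n) := by
  induction N with
  | zero => simp
  | succ N ih =>
    rw [Finset.sum_range_succ, ih, Finset.sum_range_succ (fun n => (∑ m ∈ range (n + 1), g m) *
      (w (n + 1) - w n)), Finset.sum_range_succ g]
    ring

/-- The lower bound close to a rational point with odd denominator. -/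
theorem lower_bound (q : ℕ) [NeZero q] (hq : Odd q) (a b : ℤ) (ha : IsCoprime a (q : ℤ)) (M : ℕ)
    (hM : 11 * (1 + Real.log q) ≤ (M : ℝ) ^ 2) (hM1 : 1 ≤ M) (β₁ β₂ : ℝ)
    (h₁ : |β₁| * (q * M) ≤ 1 / 64) (h₂ : |β₂| * (q * M) ^ 2 ≤ 1 / 256) :
    M * Real.sqrt q / 2 ≤
      ‖∑ n ∈ range (q * M), e (((b : ℝ) / q + β₁) * (n + 1) + ((a : ℝ) / q + β₂) * (n + 1) ^ 2)‖ := by
  have hq0 : 0 < q := hq.pos
  have hqR : (1 : ℝ) ≤ q := by exact_mod_cast hq0
  have hMR : (1 : ℝ) ≤ M := by exact_mod_cast hM1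
  set N := q * M with hN
  have hNR : (N : ℝ) = q * M := by rw [hN]; push_cast; ring
  have hN1 : (1 : ℝ) ≤ N := by rw [hNR]; nlinarith
  set w : ℕ → ℂ := fun n => e (β₁ * (n + 1) + β₂ * (n + 1) ^ 2) with hw
  have h1 : ∑ n ∈ range N, e (((b : ℝ) / q + β₁) * (n + 1) + ((a : ℝ) / q + β₂) * (n + 1) ^ 2) =
      ∑ n ∈ range N, gs q a b (n : ZMod q) * w n := by
    refine Finset.sum_congr rfl fun n _ => ?_
    rw [gs_natCast, hw, ← e_add]
    congr 1
    ring
  rw [h1, abel]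
  have hfull : ‖(∑ n ∈ range N, gs q a b (n : ZMod q)) * w N‖ = M * Real.sqrt q := by
    have h2 : ∑ n ∈ range N, gs q a b (n : ZMod q) = inc q a b (q * M + 0) := rfl
    rw [h2, inc_mul, norm_mul, hw, norm_e, mul_one]
    have : inc q a b 0 = 0 := by simp [inc]
    rw [this, add_zero, norm_mul, norm_gauss q hq a b ha, Complex.norm_natCast]
  set Mx : ℝ := M * Real.sqrt q with hMx
  have hMx0 : 0 ≤ Mx := by positivity
  have hpi : Real.pi ≤ 3.15 := Real.pi_lt_d2.le
  have hpi0 := Real.pi_pos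
  have hstep : ∀ n ∈ range N, ‖(∑ m ∈ range (n + 1), gs q a b (m : ZMod q)) * (w (n + 1) - w n)‖ ≤
      2 * Mx * (2 * Real.pi * (|β₁| + 3 * N * |β₂|)) := by
    intro n hn
    rw [mem_range] at hn
    rw [norm_mul]
    have h3 : ‖∑ m ∈ range (n + 1), gs q a b (m : ZMod q)‖ ≤ 2 * Mx :=
      norm_inc q a b hq ha M (n + 1) hM (by omega)
    have h4 : ‖w (n + 1) - w n‖ ≤ 2 * Real.pi * (|β₁| + 3 * N * |β₂|) := by
      rw [hw]
      simp only
      refine (norm_e_sub_e_le _ _).trans ?_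
      apply mul_le_mul_of_nonneg_left _ (by positivity)
      have h5 : (β₁ * (((n + 1 : ℕ) : ℝ) + 1) + β₂ * (((n + 1 : ℕ) : ℝ) + 1) ^ 2) -
          (β₁ * ((n : ℝ) + 1) + β₂ * ((n : ℝ) + 1) ^ 2) = β₁ + (2 * n + 3) * β₂ := by
        push_cast; ring
      rw [h5]
      refine (abs_add_le _ _).trans ?_
      rw [abs_mul]
      have h6 : |(2 * (n : ℝ) + 3)| ≤ 3 * N := by
        have hn' : (n : ℝ) + 1 ≤ N := by exact_mod_cast hn
        rw [abs_of_nonneg (by positivity)]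
        linarith
      have := mul_le_mul_of_nonneg_right h6 (abs_nonneg β₂)
      linarith
    calc ‖∑ m ∈ range (n + 1), gs q a b (m : ZMod q)‖ * ‖w (n + 1) - w n‖
        ≤ (2 * Mx) * (2 * Real.pi * (|β₁| + 3 * N * |β₂|)) := by
          apply mul_le_mul h3 h4 (norm_nonneg _) (by positivity)
      _ = _ := by ring
  have hsum : ‖∑ n ∈ range N, (∑ m ∈ range (n + 1), gs q a b (m : ZMod q)) * (w (n + 1) - w n)‖ ≤
      N * (2 * Mx * (2 * Real.pi * (|β₁| + 3 * N * |β₂|))) := by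
    refine (norm_sum_le _ _).trans ((Finset.sum_le_sum hstep).trans_eq ?_)
    rw [Finset.sum_const, card_range, nsmul_eq_mul]
  have hsmall : N * (2 * Mx * (2 * Real.pi * (|β₁| + 3 * N * |β₂|))) ≤ Mx / 2 := by
    have h5 : |β₁| * N ≤ 1 / 64 := by rw [hNR]; exact h₁
    have h6 : |β₂| * N ^ 2 ≤ 1 / 256 := by rw [hNR]; exact h₂
    have h7 : N * (2 * Mx * (2 * Real.pi * (|β₁| + 3 * N * |β₂|))) =
        Mx * (4 * Real.pi * (|β₁| * N + 3 * (|β₂| * N ^ 2))) := by ring
    rw [h7]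
    have h8 : 4 * Real.pi * (|β₁| * N + 3 * (|β₂| * N ^ 2)) ≤ 1 / 2 := by
      have h9 : |β₁| * N + 3 * (|β₂| * N ^ 2) ≤ 7 / 256 := by linarith
      have h10 : 0 ≤ |β₁| * N + 3 * (|β₂| * N ^ 2) := by positivity
      nlinarith
    nlinarith
  have hfin : Mx - N * (2 * Mx * (2 * Real.pi * (|β₁| + 3 * N * |β₂|))) ≤
      ‖(∑ n ∈ range N, gs q a b (n : ZMod q)) * w N -
      ∑ n ∈ range N, (∑ m ∈ range (n + 1), gs q a b (m : ZMod q)) * (w (n + 1) - w n)‖ := by
    have := norm_sub_norm_le ((∑ n ∈ range N, gs q a b (n : ZMod q)) * w N)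
      (∑ n ∈ range N, (∑ m ∈ range (n + 1), gs q a b (m : ZMod q)) * (w (n + 1) - w n))
    rw [hfull] at this
    linarith
  linarith

end Pool.Agent.H639R3.W
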