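import Mathlib

set_option autoImplicit false

/-!
The sequences used in the construction: denominators with prescribed growth, the number `ξ`, and a
Hölder coding of `[0,1)` into a Cantor set of numbers close to fractions with these denominators.
-/

namespace Pool.Agent.H639R3.W

theorem exists_nested (u δ : ℕ → ℝ) (h1 : ∀ k, u k ≤ u (k + 1))
    (h2 : ∀ k, u (k + 1) + δ (k + 1) ≤ u k + δ k) (h3 : ∀ k, 0 ≤ δ k) :
    ∃ x : ℝ, ∀ k, u k ≤ x ∧ x ≤ u k + δ k := by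
  have hmono : Monotone u := monotone_nat_of_le_succ h1
  have hanti : Antitone fun k => u k + δ k := antitone_nat_of_succ_le h2
  have hle : ∀ j k, u j ≤ u k + δ k := by
    intro j k
    rcases le_total j k with h | h
    · have := hmono h
      have := h3 k
      linarith
    · have h4 := hanti h
      simp only at h4
      have := h3 j
      linarith
  refine ⟨⨆ j, u j, fun k => ⟨?_, ?_⟩⟩
  · exact le_ciSup (f := u) ⟨u 0 + δ 0, by rintro _ ⟨j, rfl⟩; exact hle j 0⟩ k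
  · exact ciSup_le fun j => hle j k

/-- state of the recursion -/
structure St where
  u : ℤ
  v : ℤ
  r : ℤ
  s : ℤ

/-- one step of the recursion -/
noncomputable def stp (κ : ℝ) (z : St) : St :=
  ⟨z.v, 4 * ⌈(z.v : ℝ) ^ κ⌉ * z.v - z.u, z.s, 4 * ⌈(z.v : ℝ) ^ κ⌉ * z.s - z.r⟩

/-- the states -/
noncomputable def sts (κ : ℝ) (Q : ℕ) : ℕ → St
  | 0 => ⟨1, Q, 0, 1⟩
  | k + 1 => stp κ (sts κ Q k)

theorem sts_inv (κ : ℝ) (hκ : 0 < κ) (Q : ℕ) (hQ : Odd Q) (hQ1 : 1 < Q) (k : ℕ) :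
    0 < (sts κ Q k).u ∧ (sts κ Q k).u < (sts κ Q k).v ∧ Odd (sts κ Q k).u ∧ Odd (sts κ Q k).v ∧
      (Q : ℤ) ≤ (sts κ Q k).v ∧
      (sts κ Q k).s * (sts κ Q k).u - (sts κ Q k).r * (sts κ Q k).v = 1 := by
  induction k with
  | zero =>
    refine ⟨by simp [sts], ?_, by simp [sts], ?_, by simp [sts], by simp [sts]⟩
    · simp only [sts]; exact_mod_cast hQ1
    · simp only [sts]; exact_mod_cast hQ
  | succ k ih =>
    obtain ⟨h1, h2, h3, h4, h5, h6⟩ := ih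
    simp only [sts, stp]
    set z := sts κ Q k with hz
    have hv : (1 : ℝ) ≤ z.v := by
      have : (1 : ℤ) ≤ z.v := by omega
      exact_mod_cast this
    have hc : (1 : ℤ) ≤ ⌈(z.v : ℝ) ^ κ⌉ := by
      have h7 : (1 : ℝ) ≤ (z.v : ℝ) ^ κ := Real.one_le_rpow hv hκ.le
      have h8 : ((1 : ℤ) : ℝ) ≤ (⌈(z.v : ℝ) ^ κ⌉ : ℝ) := by
        push_cast
        exact h7.trans (Int.le_ceil _)
      exact_mod_cast h8
    have h9 : z.v ≤ ⌈(z.v : ℝ) ^ κ⌉ * z.v := by nlinarith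
    refine ⟨by omega, by nlinarith, h4, ?_, by nlinarith, ?_⟩
    · have h10 : Even (4 * ⌈(z.v : ℝ) ^ κ⌉ * z.v) := by
        rw [mul_assoc]
        exact Even.mul_right (by decide) _
      exact Even.sub_odd h10 h3
    · linear_combination h6

theorem exists_seq (κ : ℝ) (hκ : 0 < κ) (Q : ℕ) (hQ : Odd Q) (hQ1 : 1 < Q) :
    ∃ (q : ℕ → ℕ) (p : ℕ → ℤ), q 0 = Q ∧ p 0 = 1 ∧ (∀ k, Odd (q k)) ∧ (∀ k, Q ≤ q k) ∧
      (∀ k, 3 * (q k : ℝ) ^ (1 + κ) ≤ q (k + 1)) ∧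
      (∀ k, (q (k + 1) : ℝ) ≤ 8 * (q k : ℝ) ^ (1 + κ)) ∧
      ∀ k, p (k + 1) * q k - p k * q (k + 1) = 1 := by
  have hinv := sts_inv κ hκ Q hQ hQ1
  have hcast : ∀ k, (((sts κ Q k).v.toNat : ℕ) : ℤ) = (sts κ Q k).v := fun k =>
    Int.toNat_of_nonneg (by have := (hinv k).1; have := (hinv k).2.1; omega)
  have hcastR : ∀ k, (((sts κ Q k).v.toNat : ℕ) : ℝ) = ((sts κ Q k).v : ℝ) := fun k => by
    have := hcast k
    exact_mod_cast this
  refine ⟨fun k => (sts κ Q k).v.toNat, fun k => (sts κ Q k).s, ?_, ?_, ?_, ?_, ?_, ?_, ?_⟩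
  · simp [sts]
  · simp [sts]
  · intro k
    have := (hinv k).2.2.2.1
    rw [← hcast k] at this
    exact_mod_cast this
  · intro k
    have := (hinv k).2.2.2.2.1
    rw [← hcast k] at this
    exact_mod_cast this
  · intro k
    simp only
    rw [hcastR, hcastR]
    simp only [sts, stp]
    obtain ⟨h1, h2, h3, h4, h5, h6⟩ := hinv k
    set z := sts κ Q k with hz
    have hv : (1 : ℝ) ≤ z.v := by
      have : (1 : ℤ) ≤ z.v := by omega
      exact_mod_cast this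
    have hu : (z.u : ℝ) ≤ z.v := by exact_mod_cast h2.le
    have h7 : (1 : ℝ) ≤ (z.v : ℝ) ^ κ := Real.one_le_rpow hv hκ.le
    have h8 := Int.le_ceil ((z.v : ℝ) ^ κ)
    rw [Real.rpow_add (by linarith), Real.rpow_one]
    push_cast
    nlinarith
  · intro k
    simp only
    rw [hcastR, hcastR]
    simp only [sts, stp]
    obtain ⟨h1, h2, h3, h4, h5, h6⟩ := hinv k
    set z := sts κ Q k with hz
    have hv : (1 : ℝ) ≤ z.v := by
      have : (1 : ℤ) ≤ z.v := by omega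
      exact_mod_cast this
    have hu : (0 : ℝ) < z.u := by exact_mod_cast h1
    have h7 : (1 : ℝ) ≤ (z.v : ℝ) ^ κ := Real.one_le_rpow hv hκ.le
    have h8 := Int.ceil_lt_add_one ((z.v : ℝ) ^ κ)
    rw [Real.rpow_add (by linarith), Real.rpow_one]
    push_cast
    nlinarith
  · intro k
    simp only
    rw [hcast, hcast]
    have h := (hinv (k + 1)).2.2.2.2.2
    simp only [sts, stp] at h ⊢
    exact h

/-- number of binary digits used at level `k` -/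
noncomputable def mm (κ : ℝ) (q : ℕ → ℕ) (k : ℕ) : ℕ := Nat.log 2 ⌊(q k : ℝ) ^ (κ / 2) / 8⌋₊

/-- number of binary digits used before level `k` -/
noncomputable def bs (κ : ℝ) (q : ℕ → ℕ) (k : ℕ) : ℕ := ∑ j ∈ Finset.range k, mm κ q j

/-- the first binary digits of `t` -/
noncomputable def dg (κ : ℝ) (q : ℕ → ℕ) (t : ℝ) (k : ℕ) : ℕ := ⌊t * ((2 ^ bs κ q k : ℕ) : ℝ)⌋₊

/-- the numerators -/
noncomputable def bb (κ : ℝ) (q : ℕ → ℕ) (t : ℝ) : ℕ → ℕ
  | 0 => 0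
  | k + 1 => ⌈(bb κ q t k : ℝ) * q (k + 1) / q k⌉₊ + dg κ q t (k + 1) % 2 ^ mm κ q k

theorem mm_le (κ : ℝ) (q : ℕ → ℕ) (k : ℕ) (h : 16 ≤ (q k : ℝ) ^ (κ / 2)) :
    ((2 ^ mm κ q k : ℕ) : ℝ) ≤ (q k : ℝ) ^ (κ / 2) / 8 := by
  have h1 : ⌊(q k : ℝ) ^ (κ / 2) / 8⌋₊ ≠ 0 := by
    have : 1 ≤ ⌊(q k : ℝ) ^ (κ / 2) / 8⌋₊ := by
      rw [Nat.one_le_floor_iff]
      linarith
    omega
  have h2 := Nat.pow_log_le_self 2 h1
  have h3 : ((2 ^ mm κ q k : ℕ) : ℝ) ≤ (⌊(q k : ℝ) ^ (κ / 2) / 8⌋₊ : ℝ) := by exact_mod_cast h2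
  exact h3.trans (Nat.floor_le (by linarith))

theorem le_mm (κ : ℝ) (q : ℕ → ℕ) (k : ℕ) (h : 16 ≤ (q k : ℝ) ^ (κ / 2)) :
    (q k : ℝ) ^ (κ / 2) / 32 ≤ ((2 ^ mm κ q k : ℕ) : ℝ) := by
  have h2 := Nat.lt_pow_succ_log_self (b := 2) (by norm_num) ⌊(q k : ℝ) ^ (κ / 2) / 8⌋₊
  have h3 : (⌊(q k : ℝ) ^ (κ / 2) / 8⌋₊ : ℝ) < ((2 ^ (mm κ q k + 1) : ℕ) : ℝ) := by
    exact_mod_cast h2
  have h4 := Nat.lt_floor_add_one ((q k : ℝ) ^ (κ / 2) / 8)
  rw [pow_succ] at h3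
  push_cast at h3 ⊢
  linarith

theorem one_le_mm (κ : ℝ) (q : ℕ → ℕ) (k : ℕ) (h : 16 ≤ (q k : ℝ) ^ (κ / 2)) : 1 ≤ mm κ q k := by
  unfold mm
  apply Nat.le_log_of_pow_le (by norm_num)
  rw [pow_one]
  apply Nat.le_floor
  push_cast
  linarith

section coding

variable (κ : ℝ) (q : ℕ → ℕ)

theorem u_mono (h1 : ∀ k, 1 ≤ q k) (t : ℝ) (k : ℕ) :
    (bb κ q t k : ℝ) / q k ≤ (bb κ q t (k + 1) : ℝ) / q (k + 1) := by
  have ha : (1 : ℝ) ≤ q k := by exact_mod_cast h1 k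
  have hb : (1 : ℝ) ≤ q (k + 1) := by exact_mod_cast h1 (k + 1)
  rw [le_div_iff₀ (by linarith)]
  simp only [bb]
  push_cast
  have h3 := Nat.le_ceil ((bb κ q t k : ℝ) * q (k + 1) / q k)
  have h4 : (0 : ℝ) ≤ ((dg κ q t (k + 1) % 2 ^ mm κ q k : ℕ) : ℝ) := Nat.cast_nonneg _
  calc (bb κ q t k : ℝ) / q k * q (k + 1) = (bb κ q t k : ℝ) * q (k + 1) / q k := by ring
    _ ≤ _ := by linarith

theorem u_step (h16 : ∀ k, 16 ≤ (q k : ℝ) ^ (κ / 2)) (h1 : ∀ k, 1 ≤ q k)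
    (hlo : ∀ k, 3 * (q k : ℝ) ^ (1 + κ) ≤ q (k + 1)) (t : ℝ) (k : ℕ) :
    (bb κ q t (k + 1) : ℝ) / q (k + 1) + 1 / (4 * (q (k + 1) * (q (k + 1) : ℝ) ^ (κ / 2))) ≤
      (bb κ q t k : ℝ) / q k + 1 / (4 * (q k * (q k : ℝ) ^ (κ / 2))) := by
  have ha : (1 : ℝ) ≤ q k := by exact_mod_cast h1 k
  have hb : (1 : ℝ) ≤ q (k + 1) := by exact_mod_cast h1 (k + 1)
  have hl := hlo k
  have hR : (q k : ℝ) ^ (1 + κ) = q k * ((q k : ℝ) ^ (κ / 2) * (q k : ℝ) ^ (κ / 2)) := by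
    rw [← Real.rpow_add (by linarith), Real.rpow_add (by linarith), Real.rpow_one]
    congr 2
    ring
  rw [hR] at hl
  have hR1 := h16 k
  have hR2 := h16 (k + 1)
  have hmm := mm_le κ q k hR1
  set R := (q k : ℝ) ^ (κ / 2) with hRdef
  set R' := (q (k + 1) : ℝ) ^ (κ / 2) with hRdef'
  set a := (q k : ℝ) with hadef
  set b := (q (k + 1) : ℝ) with hbdef
  have h5 : (bb κ q t (k + 1) : ℝ) ≤ (bb κ q t k : ℝ) * b / a + R / 8 := by
    simp only [bb]
    push_cast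
    have h3 := Nat.ceil_lt_add_one (a := (bb κ q t k : ℝ) * b / a) (by positivity)
    have h4 : ((dg κ q t (k + 1) % 2 ^ mm κ q k : ℕ) : ℝ) + 1 ≤ ((2 ^ mm κ q k : ℕ) : ℝ) := by
      have := Nat.mod_lt (dg κ q t (k + 1)) (show 0 < 2 ^ mm κ q k by positivity)
      exact_mod_cast this
    linarith
  have hbpos : 0 < b := by linarith
  have hapos : 0 < a := by linarith
  have hRpos : 0 < R := by linarith
  have h6 : (bb κ q t (k + 1) : ℝ) / b ≤ (bb κ q t k : ℝ) / a + R / 8 / b := by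
    rw [div_le_iff₀ hbpos]
    calc (bb κ q t (k + 1) : ℝ) ≤ _ := h5
      _ = ((bb κ q t k : ℝ) / a + R / 8 / b) * b := by field_simp
  have h7 : R / 8 / b ≤ 1 / (24 * (a * R)) := by
    rw [div_le_div_iff₀ hbpos (by positivity)]
    nlinarith
  have h8 : 1 / (4 * (b * R')) ≤ 1 / (64 * (3 * (a * (R * R)))) := by
    apply one_div_le_one_div_of_le (by positivity)
    nlinarith
  have h9 : 1 / (64 * (3 * (a * (R * R)))) ≤ 1 / (64 * (3 * (a * R))) := by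
    apply one_div_le_one_div_of_le (by positivity)
    have : a * R ≤ a * (R * R) := by
      apply mul_le_mul_of_nonneg_left _ hapos.le
      nlinarith
    linarith
  have h10 : 1 / (24 * (a * R)) + 1 / (64 * (3 * (a * R))) ≤ 1 / (4 * (a * R)) := by
    have h11 : 0 < 1 / (a * R) := by positivity
    have e1 : 1 / (24 * (a * R)) = (1 / 24) * (1 / (a * R)) := by field_simp
    have e2 : 1 / (64 * (3 * (a * R))) = (1 / 192) * (1 / (a * R)) := by field_simp; norm_num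
    have e3 : 1 / (4 * (a * R)) = (1 / 4) * (1 / (a * R)) := by field_simp
    rw [e1, e2, e3]
    linarith
  linarith

theorem exists_coded (h16 : ∀ k, 16 ≤ (q k : ℝ) ^ (κ / 2)) (h1 : ∀ k, 1 ≤ q k)
    (hlo : ∀ k, 3 * (q k : ℝ) ^ (1 + κ) ≤ q (k + 1)) :
    ∃ x : ℝ → ℝ, ∀ t k, (bb κ q t k : ℝ) / q k ≤ x t ∧
      x t ≤ (bb κ q t k : ℝ) / q k + 1 / (4 * (q k * (q k : ℝ) ^ (κ / 2))) := by
  have h : ∀ t : ℝ, ∃ x : ℝ, ∀ k, (bb κ q t k : ℝ) / q k ≤ x ∧
      x ≤ (bb κ q t k : ℝ) / q k + 1 / (4 * (q k * (q k : ℝ) ^ (κ / 2))) := by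
    intro t
    apply exists_nested (fun k => (bb κ q t k : ℝ) / q k)
      (fun k => 1 / (4 * (q k * (q k : ℝ) ^ (κ / 2))))
    · exact u_mono κ q h1 t
    · exact u_step κ q h16 h1 hlo t
    · intro k
      positivity
  choose x hx using h
  exact ⟨x, hx⟩

theorem dg_div (t : ℝ) (k : ℕ) : dg κ q t (k + 1) / 2 ^ mm κ q k = dg κ q t k := by
  unfold dg
  rw [← Nat.floor_div_natCast]
  congr 1
  have : bs κ q (k + 1) = bs κ q k + mm κ q k := by
    unfold bs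
    rw [Finset.sum_range_succ]
  rw [this, pow_add]
  push_cast
  field_simp

theorem bb_eq_of_dg_eq (t t' : ℝ) (K : ℕ) (h : ∀ j ≤ K, dg κ q t j = dg κ q t' j) :
    ∀ j ≤ K, bb κ q t j = bb κ q t' j := by
  intro j
  induction j with
  | zero => intro _; rfl
  | succ j ih =>
    intro hj
    simp only [bb]
    rw [ih (by omega), h (j + 1) hj]

/-- two different parameters are separated at some level -/
theorem exists_split (h16 : ∀ k, 16 ≤ (q k : ℝ) ^ (κ / 2)) (t t' : ℝ)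
    (ht : t ∈ Set.Ico (0 : ℝ) 1) (ht' : t' ∈ Set.Ico (0 : ℝ) 1) (hne : t ≠ t') :
    ∃ k, bb κ q t (k + 1) ≠ bb κ q t' (k + 1) ∧ |t - t'| ≤ 1 / ((2 ^ bs κ q k : ℕ) : ℝ) := by
  classical
  have hclose : ∀ k, dg κ q t k = dg κ q t' k → |t - t'| ≤ 1 / ((2 ^ bs κ q k : ℕ) : ℝ) := by
    intro k hk
    unfold dg at hk
    set P := ((2 ^ bs κ q k : ℕ) : ℝ) with hP
    have hPpos : 0 < P := by
      rw [hP]
      positivity
    have h1 := Nat.floor_le (a := t * P) (mul_nonneg ht.1 hPpos.le)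
    have h2 := Nat.lt_floor_add_one (t * P)
    have h3 := Nat.floor_le (a := t' * P) (mul_nonneg ht'.1 hPpos.le)
    have h4 := Nat.lt_floor_add_one (t' * P)
    rw [hk] at h1 h2
    rw [le_div_iff₀ hPpos]
    have h5 : |t - t'| * P = |t * P - t' * P| := by
      rw [← sub_mul, abs_mul, abs_of_pos hPpos]
    rw [h5, abs_le]
    constructor <;> linarith
  have hex : ∃ K, dg κ q t K ≠ dg κ q t' K := by
    by_contra hcon
    push Not at hcon
    have hd : 0 < |t - t'| := abs_pos.mpr (sub_ne_zero.mpr hne)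
    obtain ⟨n, hn⟩ := pow_unbounded_of_one_lt (1 / |t - t'|) (show (1 : ℝ) < 2 by norm_num)
    have hbs : n ≤ bs κ q n := by
      unfold bs
      calc n = ∑ j ∈ Finset.range n, 1 := by simp
        _ ≤ _ := Finset.sum_le_sum fun j _ => one_le_mm κ q j (h16 j)
    have h5 := hclose n (hcon n)
    have h6 : (2 : ℝ) ^ n ≤ ((2 ^ bs κ q n : ℕ) : ℝ) := by
      push_cast
      exact pow_le_pow_right₀ (by norm_num) hbs
    have h7 : 1 / |t - t'| < ((2 ^ bs κ q n : ℕ) : ℝ) := lt_of_lt_of_le hn h6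
    rw [div_lt_iff₀ hd] at h7
    rw [le_div_iff₀ (by positivity)] at h5
    linarith
  set K := Nat.find hex with hK
  have hK1 := Nat.find_spec hex
  have hK2 : ∀ j < K, dg κ q t j = dg κ q t' j := fun j hj => by
    by_contra hcon
    exact Nat.find_min hex hj hcon
  rw [← hK] at hK1
  have h0 : dg κ q t 0 = dg κ q t' 0 := by
    have hz : ∀ s ∈ Set.Ico (0 : ℝ) 1, dg κ q s 0 = 0 := by
      intro s hs
      unfold dg bs
      simp only [Finset.range_zero, Finset.sum_empty, pow_zero, Nat.cast_one, mul_one]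
      exact Nat.floor_eq_zero.mpr hs.2
    rw [hz t ht, hz t' ht']
  rcases Nat.eq_zero_or_pos K with hK0 | hKpos
  · rw [hK0] at hK1
    exact absurd h0 hK1
  · obtain ⟨k, hk⟩ : ∃ k, K = k + 1 := ⟨K - 1, by omega⟩
    rw [hk] at hK1 hK2
    refine ⟨k, ?_, hclose k (hK2 k (by omega))⟩
    intro hbb
    apply hK1
    simp only [bb] at hbb
    rw [bb_eq_of_dg_eq κ q t t' k (fun j hj => hK2 j (by omega)) k le_rfl] at hbb
    have h1 : dg κ q t (k + 1) % 2 ^ mm κ q k = dg κ q t' (k + 1) % 2 ^ mm κ q k := by omega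
    rw [← Nat.div_add_mod (dg κ q t (k + 1)) (2 ^ mm κ q k),
      ← Nat.div_add_mod (dg κ q t' (k + 1)) (2 ^ mm κ q k), h1, dg_div, dg_div,
      hK2 k (by omega)]

/-- the coding is inverse Hölder -/
theorem coded_holder (hκ : 0 < κ) (h16 : ∀ k, 16 ≤ (q k : ℝ) ^ (κ / 2)) (h1 : ∀ k, 1 ≤ q k)
    (hhi : ∀ k, (q (k + 1) : ℝ) ≤ 8 * (q k : ℝ) ^ (1 + κ))
    (x : ℝ → ℝ) (hx : ∀ t k, (bb κ q t k : ℝ) / q k ≤ x t ∧
      x t ≤ (bb κ q t k : ℝ) / q k + 1 / (4 * (q k * (q k : ℝ) ^ (κ / 2)))) :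
    ∃ C r : ℝ, 0 < C ∧ 0 < r ∧ ∀ t ∈ Set.Ico (0 : ℝ) 1, ∀ t' ∈ Set.Ico (0 : ℝ) 1,
      |t - t'| ≤ C * |x t - x t'| ^ r := by
  set r : ℝ := (κ / 2) / (1 + κ) ^ 2 with hr
  have hrpos : 0 < r := by positivity
  set A : ℝ := 2 * (8 * 8 ^ (1 + κ)) with hA
  have hApos : 0 < A := by positivity
  have hq1 : (1 : ℝ) ≤ q 1 := by exact_mod_cast h1 1
  set C : ℝ := max ((2 * (q 1 : ℝ)) ^ r) (32 * A ^ r) with hC
  have hC1 : (2 * (q 1 : ℝ)) ^ r ≤ C := le_max_left _ _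
  have hC2 : 32 * A ^ r ≤ C := le_max_right _ _
  have hCpos : 0 < C := lt_of_lt_of_le (by positivity) hC1
  refine ⟨C, r, hCpos, hrpos, ?_⟩
  intro t ht t' ht'
  rcases eq_or_ne t t' with hne | hne
  · subst hne
    simp only [sub_self, abs_zero]
    positivity
  obtain ⟨k, hk, hk2⟩ := exists_split κ q h16 t t' ht ht' hne
  have hqk : (1 : ℝ) ≤ q (k + 1) := by exact_mod_cast h1 (k + 1)
  have hsep : 1 / (2 * (q (k + 1) : ℝ)) ≤ |x t - x t'| := by
    obtain ⟨ha, hb⟩ := hx t (k + 1)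
    obtain ⟨ha', hb'⟩ := hx t' (k + 1)
    have hR := h16 (k + 1)
    set b := (q (k + 1) : ℝ) with hbdef
    have hδ : 1 / (4 * (b * b ^ (κ / 2))) ≤ 1 / (64 * b) := by
      apply one_div_le_one_div_of_le (by positivity)
      nlinarith
    have e1 : 1 / (64 * b) = (1 / 64) * (1 / b) := by field_simp
    have e2 : 1 / (2 * b) = (1 / 2) * (1 / b) := by field_simp
    have hbb : 0 < 1 / b := by positivity
    rw [e1] at hδ
    rw [e2]
    rcases lt_or_gt_of_ne hk with hlt | hlt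
    · have h3 : (bb κ q t (k + 1) : ℝ) + 1 ≤ bb κ q t' (k + 1) := by exact_mod_cast hlt
      have h4 : (bb κ q t (k + 1) : ℝ) / b + 1 / b ≤ (bb κ q t' (k + 1) : ℝ) / b := by
        rw [← add_div]
        exact div_le_div_of_nonneg_right h3 (by linarith)
      rw [abs_sub_comm]
      refine le_trans ?_ (le_abs_self _)
      linarith
    · have h3 : (bb κ q t' (k + 1) : ℝ) + 1 ≤ bb κ q t (k + 1) := by exact_mod_cast hlt
      have h4 : (bb κ q t' (k + 1) : ℝ) / b + 1 / b ≤ (bb κ q t (k + 1) : ℝ) / b := by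
        rw [← add_div]
        exact div_le_div_of_nonneg_right h3 (by linarith)
      refine le_trans ?_ (le_abs_self _)
      linarith
  have hsepr : (1 / (2 * (q (k + 1) : ℝ))) ^ r ≤ |x t - x t'| ^ r :=
    Real.rpow_le_rpow (by positivity) hsep hrpos.le
  rcases Nat.eq_zero_or_pos k with hk0 | hkpos
  · subst hk0
    have h2 : |t - t'| ≤ 1 := by
      rw [abs_le]
      constructor <;> linarith [ht.1, ht.2, ht'.1, ht'.2]
    calc |t - t'| ≤ 1 := h2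
      _ = (2 * (q 1 : ℝ)) ^ r * (1 / (2 * (q 1 : ℝ))) ^ r := by
          rw [← Real.mul_rpow (by positivity) (by positivity)]
          rw [mul_one_div_cancel (by positivity), Real.one_rpow]
      _ ≤ C * |x t - x t'| ^ r := by
          apply mul_le_mul hC1 hsepr (by positivity) hCpos.le
  · obtain ⟨j, rfl⟩ : ∃ j, k = j + 1 := ⟨k - 1, by omega⟩
    have hqj : (1 : ℝ) ≤ q j := by exact_mod_cast h1 j
    have hqj1 : (1 : ℝ) ≤ q (j + 1) := by exact_mod_cast h1 (j + 1)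
    have hup : 2 * (q (j + 1 + 1) : ℝ) ≤ A * (q j : ℝ) ^ ((1 + κ) ^ 2) := by
      have h3 := hhi j
      have h4 := hhi (j + 1)
      have h5 : (q (j + 1) : ℝ) ^ (1 + κ) ≤ (8 * (q j : ℝ) ^ (1 + κ)) ^ (1 + κ) :=
        Real.rpow_le_rpow (by linarith) h3 (by linarith)
      rw [Real.mul_rpow (by norm_num) (by positivity), ← Real.rpow_mul (by linarith)] at h5
      rw [sq]
      rw [hA]
      linarith
    have h6 : (1 / (A * (q j : ℝ) ^ ((1 + κ) ^ 2))) ^ r ≤ |x t - x t'| ^ r := by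
      refine le_trans ?_ hsepr
      apply Real.rpow_le_rpow (by positivity) _ hrpos.le
      apply one_div_le_one_div_of_le (by positivity) hup
    have h7 : (1 / (A * (q j : ℝ) ^ ((1 + κ) ^ 2))) ^ r = 1 / (A ^ r * (q j : ℝ) ^ (κ / 2)) := by
      rw [Real.div_rpow (by norm_num) (by positivity), Real.one_rpow,
        Real.mul_rpow (by positivity) (by positivity), ← Real.rpow_mul (by linarith)]
      congr 3
      rw [hr]
      field_simp
    rw [h7] at h6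
    have h8 : (q j : ℝ) ^ (κ / 2) / 32 ≤ ((2 ^ bs κ q (j + 1) : ℕ) : ℝ) := by
      refine (le_mm κ q j (h16 j)).trans ?_
      have : 2 ^ mm κ q j ≤ 2 ^ bs κ q (j + 1) := by
        apply Nat.pow_le_pow_right (by norm_num)
        unfold bs
        rw [Finset.sum_range_succ]
        omega
      exact_mod_cast this
    have hRj := h16 j
    calc |t - t'| ≤ 1 / ((2 ^ bs κ q (j + 1) : ℕ) : ℝ) := hk2
      _ ≤ 1 / ((q j : ℝ) ^ (κ / 2) / 32) := one_div_le_one_div_of_le (by linarith) h8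
      _ = 32 * A ^ r * (1 / (A ^ r * (q j : ℝ) ^ (κ / 2))) := by
          have : (q j : ℝ) ^ (κ / 2) ≠ 0 := by linarith
          have : A ^ r ≠ 0 := by positivity
          field_simp
      _ ≤ C * |x t - x t'| ^ r := mul_le_mul hC2 h6 (by positivity) hCpos.le

end coding

/-- positivity of the Hausdorff dimension from a coding with a Hölder inverse -/
theorem dimH_pos {E : Type*} [MetricSpace E] (X : ℝ → E) (C r : ℝ) (hC : 0 < C) (hr : 0 < r)
    (h : ∀ t ∈ Set.Ico (0 : ℝ) 1, ∀ t' ∈ Set.Ico (0 : ℝ) 1,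
      |t - t'| ≤ C * dist (X t) (X t') ^ r) :
    0 < dimH (X '' Set.Ico (0 : ℝ) 1) := by
  classical
  have hinj : Set.InjOn X (Set.Ico (0 : ℝ) 1) := by
    intro t ht t' ht' he
    have h1 := h t ht t' ht'
    rw [he, dist_self, Real.zero_rpow hr.ne', mul_zero] at h1
    have h2 : |t - t'| = 0 := le_antisymm h1 (abs_nonneg _)
    rw [abs_eq_zero] at h2
    linarith
  set g : E → ℝ := Function.invFunOn X (Set.Ico (0 : ℝ) 1) with hg
  have hgX : ∀ t ∈ Set.Ico (0 : ℝ) 1, g (X t) = t := fun t ht => hinj.leftInvOn_invFunOn ht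
  set C' : NNReal := ⟨C, hC.le⟩ with hC'
  set r' : NNReal := ⟨r, hr.le⟩ with hr'
  have hhol : HolderOnWith C' r' g (X '' Set.Ico (0 : ℝ) 1) := by
    rintro _ ⟨t, ht, rfl⟩ _ ⟨t', ht', rfl⟩
    rw [hgX t ht, hgX t' ht']
    have h1 := h t ht t' ht'
    rw [edist_dist, edist_dist, Real.dist_eq]
    rw [ENNReal.ofReal_rpow_of_nonneg dist_nonneg (by positivity)]
    have h2 : ((C' : NNReal) : ENNReal) = ENNReal.ofReal C := by
      rw [ENNReal.ofReal]
      congr 1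
      ext
      rw [Real.coe_toNNReal _ hC.le]
      rfl
    rw [h2, ← ENNReal.ofReal_mul hC.le]
    exact ENNReal.ofReal_le_ofReal h1
  have h3 := hhol.dimH_image_le (by exact_mod_cast hr : 0 < r')
  have h4 : g '' (X '' Set.Ico (0 : ℝ) 1) = Set.Ico (0 : ℝ) 1 := by
    ext y
    constructor
    · rintro ⟨_, ⟨t, ht, rfl⟩, rfl⟩
      rw [hgX t ht]
      exact ht
    · intro hy
      exact ⟨X y, ⟨y, hy, rfl⟩, hgX y hy⟩
  rw [h4] at h3
  have h5 : dimH (Set.Ico (0 : ℝ) 1) = 1 := by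
    rw [Real.dimH_of_nonempty_interior]
    · simp
    · rw [interior_Ico]
      exact ⟨1 / 2, by norm_num, by norm_num⟩
  rw [h5] at h3
  by_contra hcon
  have h6 : dimH (X '' Set.Ico (0 : ℝ) 1) = 0 := by
    simpa using hcon
  rw [h6] at h3
  simp at h3

end Pool.Agent.H639R3.W
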