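import Mathlib
import Pool.Agent.H639R3.W.Exp
import Pool.Agent.H639R3.W.Gauss
import Pool.Agent.H639R3.W.Seq

set_option autoImplicit false

/-!
The growth of the quadratic sums attached to the constructed numbers.
-/

namespace Pool.Agent.H639R3.W

open Finset Filter

/-- the quadratic sum -/
noncomputable def qs (x ξ : ℝ) (N : ℕ) : ℂ :=
  ∑ n ∈ range N, e (x * (n + 1) + ξ * (n + 1) ^ 2)

section

variable (κ : ℝ) (q : ℕ → ℕ) (p : ℕ → ℤ)

theorem le_q (hκ : 0 < κ) (h1 : ∀ k, 1 ≤ q k) (hlo : ∀ k, 3 * (q k : ℝ) ^ (1 + κ) ≤ q (k + 1))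
    (k : ℕ) : 3 * q k ≤ q (k + 1) := by
  have ha : (1 : ℝ) ≤ q k := by exact_mod_cast h1 k
  have h2 := hlo k
  have h3 : (q k : ℝ) ≤ (q k : ℝ) ^ (1 + κ) := by
    conv_lhs => rw [← Real.rpow_one (q k : ℝ)]
    exact Real.rpow_le_rpow_of_exponent_le ha (by linarith)
  have h4 : 3 * (q k : ℝ) ≤ q (k + 1) := by linarith
  exact_mod_cast h4

theorem succ_le_q (hκ : 0 < κ) (h1 : ∀ k, 1 ≤ q k)
    (hlo : ∀ k, 3 * (q k : ℝ) ^ (1 + κ) ≤ q (k + 1)) (k : ℕ) : k + 1 ≤ q k := by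
  induction k with
  | zero => simpa using h1 0
  | succ k ih =>
    have := le_q κ q hκ h1 hlo k
    omega

theorem exists_xi (hκ : 0 < κ) (h1 : ∀ k, 1 ≤ q k)
    (hlo : ∀ k, 3 * (q k : ℝ) ^ (1 + κ) ≤ q (k + 1))
    (hp : ∀ k, p (k + 1) * q k - p k * q (k + 1) = 1) :
    ∃ ξ : ℝ, ∀ k, (p k : ℝ) / q k ≤ ξ ∧ ξ ≤ (p k : ℝ) / q k + 2 / (q k * q (k + 1)) := by
  have hpos : ∀ k, (0 : ℝ) < q k := fun k => by exact_mod_cast h1 k
  have hstep : ∀ k, (p (k + 1) : ℝ) / q (k + 1) = (p k : ℝ) / q k + 1 / (q k * q (k + 1)) := by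
    intro k
    have h2 : (p (k + 1) : ℝ) * q k - p k * q (k + 1) = 1 := by exact_mod_cast hp k
    have h3 := hpos k
    have h4 := hpos (k + 1)
    field_simp
    linarith
  apply exists_nested (fun k => (p k : ℝ) / q k) (fun k => 2 / ((q k : ℝ) * q (k + 1)))
  · intro k
    rw [hstep k]
    have h3 := hpos k
    have h4 := hpos (k + 1)
    have : (0 : ℝ) < 1 / (q k * q (k + 1)) := by positivity
    linarith
  · intro k
    rw [hstep k]
    have h3 := hpos k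
    have h4 := hpos (k + 1)
    have h5 := hpos (k + 1 + 1)
    have h6 : 2 * (q k : ℝ) ≤ q (k + 1 + 1) := by
      have a1 := le_q κ q hκ h1 hlo k
      have a2 := le_q κ q hκ h1 hlo (k + 1)
      have : 2 * q k ≤ q (k + 1 + 1) := by omega
      exact_mod_cast this
    have h7 : 2 / ((q (k + 1) : ℝ) * q (k + 1 + 1)) ≤ 1 / (q k * q (k + 1)) := by
      rw [div_le_div_iff₀ (by positivity) (by positivity)]
      nlinarith
    have h8 : (2 : ℝ) / (q k * q (k + 1)) = 1 / (q k * q (k + 1)) + 1 / (q k * q (k + 1)) := by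
      ring
    linarith
  · intro k
    have h3 := hpos k
    have h4 := hpos (k + 1)
    positivity

theorem coprime_pq (hp : ∀ k, p (k + 1) * q k - p k * q (k + 1) = 1) (k : ℕ) :
    IsCoprime (p k) (q k : ℤ) :=
  ⟨-(q (k + 1) : ℤ), p (k + 1), by linarith [hp k]⟩

theorem upper (hκ : 0 < κ) (hodd : ∀ k, Odd (q k)) (h16 : ∀ k, 16 ≤ (q k : ℝ) ^ (κ / 2))
    (h1 : ∀ k, 1 ≤ q k)
    (hlo : ∀ k, 3 * (q k : ℝ) ^ (1 + κ) ≤ q (k + 1))
    (hhi : ∀ k, (q (k + 1) : ℝ) ≤ 8 * (q k : ℝ) ^ (1 + κ))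
    (hp : ∀ k, p (k + 1) * q k - p k * q (k + 1) = 1) (ξ : ℝ)
    (hξ : ∀ k, (p k : ℝ) / q k ≤ ξ ∧ ξ ≤ (p k : ℝ) / q k + 2 / (q k * q (k + 1)))
    (x : ℝ) (N : ℕ) (hN : (q 0 : ℝ) * (q 0 : ℝ) ^ (κ / 2) ≤ N) :
    ‖qs x ξ N‖ ^ 2 ≤ 200 * (N : ℝ) ^ (2 * ((κ + 1) / (κ + 2))) * (1 + Real.log N) := by
  classical
  have hpos : ∀ k, (1 : ℝ) ≤ q k := fun k => by exact_mod_cast h1 k
  have hex : ∃ k, (N : ℝ) < (q k : ℝ) * (q k : ℝ) ^ (κ / 2) := by
    refine ⟨N, ?_⟩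
    have h2 := succ_le_q κ q hκ h1 hlo N
    have h3 : (N : ℝ) + 1 ≤ q N := by exact_mod_cast h2
    have h4 := h16 N
    have h5 := hpos N
    nlinarith
  have hk := Nat.find_spec hex
  have hmin : ∀ j < Nat.find hex, ¬ (N : ℝ) < (q j : ℝ) * (q j : ℝ) ^ (κ / 2) := fun j hj =>
    Nat.find_min hex hj
  set k := Nat.find hex with hkdef
  have hk0 : k ≠ 0 := by
    intro h
    rw [h] at hk
    linarith
  obtain ⟨j, hj⟩ : ∃ j, k = j + 1 := ⟨k - 1, by omega⟩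
  rw [hj] at hk hmin
  have hNj := hmin j (by omega)
  push Not at hNj
  set a := (q j : ℝ) with ha
  set b := (q (j + 1) : ℝ) with hb
  set c := (q (j + 1 + 1) : ℝ) with hc
  have ha1 : 1 ≤ a := hpos j
  have hb1 : 1 ≤ b := hpos (j + 1)
  have hc1 : 1 ≤ c := hpos (j + 1 + 1)
  have hRa := h16 j
  have hRb := h16 (j + 1)
  rw [← ha] at hRa
  rw [← hb] at hRb
  have hN1 : (1 : ℝ) ≤ N := by nlinarith
  have hbR : (b : ℝ) ^ (1 + κ) = b * (b ^ (κ / 2) * b ^ (κ / 2)) := by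
    rw [← Real.rpow_add (by linarith), Real.rpow_add (by linarith), Real.rpow_one]
    congr 2
    ring
  have hc2 := hlo (j + 1)
  rw [← hb, ← hc, hbR] at hc2
  have h16N : 16 * (N : ℝ) ≤ c := by
    have : b * b ^ (κ / 2) * 16 ≤ b * (b ^ (κ / 2) * b ^ (κ / 2)) := by
      rw [← mul_assoc]
      exact mul_le_mul_of_nonneg_left hRb (by positivity)
    linarith
  obtain ⟨hξ1, hξ2⟩ := hξ (j + 1)
  rw [← hb, ← hc] at hξ2
  rw [← hb] at hξ1
  set β := ξ - (p (j + 1) : ℝ) / b with hβ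
  have hβ1 : |β| ≤ 2 / (b * c) := by
    rw [abs_of_nonneg (by linarith)]
    linarith
  have hweyl := weyl_bound (q (j + 1)) (hodd (j + 1)) (p (j + 1)) (coprime_pq q p hp (j + 1)) x β N
    (by
      intro h hh
      rw [abs_mul, abs_mul, abs_of_pos (by norm_num : (0 : ℝ) < 2)]
      have hh1 : |(h : ℝ)| ≤ N := by
        rw [abs_of_nonneg (Nat.cast_nonneg h)]
        exact_mod_cast hh.le
      calc 2 * |β| * |(h : ℝ)| ≤ 2 * (2 / (b * c)) * N := by
            apply mul_le_mul _ hh1 (abs_nonneg _) (by positivity)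
            linarith
        _ = 4 * N / (b * c) := by ring
        _ ≤ 1 / (4 * b) := by
            rw [div_le_div_iff₀ (by positivity) (by positivity)]
            nlinarith)
  have hsum : (∑ n ∈ range N, e (x * (n + 1) + ((p (j + 1) : ℝ) / q (j + 1) + β) * (n + 1) ^ 2)) =
      qs x ξ N := by
    unfold qs
    apply sum_congr rfl
    intro n _
    congr 3
    rw [hβ, hb]
    ring
  rw [hsum, ← hb] at hweyl
  set A := (N : ℝ) ^ (2 * ((κ + 1) / (κ + 2))) with hA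
  have hApos : 0 < A := by positivity
  have hNA : (N : ℝ) ≤ A := by
    conv_lhs => rw [← Real.rpow_one (N : ℝ)]
    apply Real.rpow_le_rpow_of_exponent_le hN1
    rw [← mul_div_assoc, le_div_iff₀ (by linarith)]
    linarith
  have hbA : b ≤ 8 * A := by
    have h2 := hhi j
    rw [← ha, ← hb] at h2
    refine h2.trans ?_
    have h3 : a ^ (1 + κ) = (a * a ^ (κ / 2)) ^ (2 * ((κ + 1) / (κ + 2))) := by
      have : a * a ^ (κ / 2) = a ^ (1 + κ / 2) := by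
        rw [Real.rpow_add (by linarith), Real.rpow_one]
      rw [this, ← Real.rpow_mul (by linarith)]
      congr 1
      field_simp
      ring
    have h4 : (a * a ^ (κ / 2)) ^ (2 * ((κ + 1) / (κ + 2))) ≤ A := by
      rw [hA]
      apply Real.rpow_le_rpow (by positivity) hNj (by positivity)
    rw [h3]
    linarith
  have hN2 : (N : ℝ) / b * N ≤ A := by
    rw [div_mul_eq_mul_div, div_le_iff₀ (by linarith)]
    have h3 : (N : ℝ) * N = A * (N : ℝ) ^ (1 / (1 + κ / 2)) := by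
      rw [hA, ← Real.rpow_add (by linarith)]
      have : (N : ℝ) * N = (N : ℝ) ^ (2 : ℝ) := by
        rw [show (2 : ℝ) = ((2 : ℕ) : ℝ) by norm_num, Real.rpow_natCast]
        ring
      rw [this]
      congr 1
      field_simp
      ring
    rw [h3]
    apply mul_le_mul_of_nonneg_left _ hApos.le
    have h4 : b * b ^ (κ / 2) = b ^ (1 + κ / 2) := by
      rw [Real.rpow_add (by linarith), Real.rpow_one]
    rw [h4] at hk
    calc (N : ℝ) ^ (1 / (1 + κ / 2)) ≤ (b ^ (1 + κ / 2)) ^ (1 / (1 + κ / 2)) :=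
          Real.rpow_le_rpow (by linarith) hk.le (by positivity)
      _ = b := by
          rw [← Real.rpow_mul (by linarith), mul_one_div_cancel (by positivity), Real.rpow_one]
  have hlogN : 0 ≤ Real.log N := Real.log_nonneg hN1
  have hlogb : Real.log b ≤ 3 + 2 * Real.log N := by
    calc Real.log b ≤ Real.log (8 * A) := Real.log_le_log (by linarith) hbA
      _ = Real.log 8 + (2 * ((κ + 1) / (κ + 2))) * Real.log N := by
          rw [Real.log_mul (by norm_num) hApos.ne', hA, Real.log_rpow (by linarith)]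
      _ ≤ 3 + 2 * Real.log N := by
          have h8 : Real.log 8 ≤ 3 := by
            have : (8 : ℝ) = 2 ^ (3 : ℕ) := by norm_num
            rw [this, Real.log_pow]
            have := Real.log_two_lt_d9
            push_cast
            linarith
          have hr : (κ + 1) / (κ + 2) ≤ 1 := by
            rw [div_le_one (by linarith)]
            linarith
          have : (2 * ((κ + 1) / (κ + 2))) * Real.log N ≤ 2 * Real.log N := by
            apply mul_le_mul_of_nonneg_right _ hlogN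
            linarith
          linarith
  have hlogb0 : 0 ≤ Real.log b := Real.log_nonneg hb1
  have hsplit : ((N : ℝ) / b + 1) * (2 * b * (1 + Real.log b)) =
      2 * (N + b) * (1 + Real.log b) := by
    field_simp
  rw [hsplit] at hweyl
  have h5 : 2 * ((N : ℝ) + b) * (1 + Real.log b) ≤ 2 * (9 * A) * (4 + 2 * Real.log N) := by
    apply mul_le_mul _ _ (by positivity) (by positivity)
    · linarith
    · linarith
  calc ‖qs x ξ N‖ ^ 2 ≤ _ := hweyl
    _ ≤ A + 2 * (A + 2 * (9 * A) * (4 + 2 * Real.log N)) := by linarith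
    _ = A * (147 + 72 * Real.log N) := by ring
    _ ≤ A * (200 * (1 + Real.log N)) := by
        apply mul_le_mul_of_nonneg_left _ hApos.le
        linarith
    _ = _ := by ring

theorem isBigO_of_gt (hκ : 0 < κ) (hodd : ∀ k, Odd (q k)) (h16 : ∀ k, 16 ≤ (q k : ℝ) ^ (κ / 2))
    (h1 : ∀ k, 1 ≤ q k)
    (hlo : ∀ k, 3 * (q k : ℝ) ^ (1 + κ) ≤ q (k + 1))
    (hhi : ∀ k, (q (k + 1) : ℝ) ≤ 8 * (q k : ℝ) ^ (1 + κ))
    (hp : ∀ k, p (k + 1) * q k - p k * q (k + 1) = 1) (ξ : ℝ)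
    (hξ : ∀ k, (p k : ℝ) / q k ≤ ξ ∧ ξ ≤ (p k : ℝ) / q k + 2 / (q k * q (k + 1)))
    (x : ℝ) (s : ℝ) (hs : (κ + 1) / (κ + 2) < s) :
    (fun N : ℕ => ‖qs x ξ N‖) =O[atTop] fun N : ℕ => (N : ℝ) ^ s := by
  set ε := 2 * (s - (κ + 1) / (κ + 2)) with hε
  have hεpos : 0 < ε := by
    rw [hε]
    linarith
  set D := 200 * (1 + 1 / ε) with hD
  have hDpos : 0 < D := by positivity
  apply Asymptotics.IsBigO.of_bound (Real.sqrt D)
  filter_upwards [eventually_ge_atTop (⌈(q 0 : ℝ) * (q 0 : ℝ) ^ (κ / 2)⌉₊ + 1)] with N hN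
  have hN0 : (q 0 : ℝ) * (q 0 : ℝ) ^ (κ / 2) ≤ N := by
    have h2 := Nat.le_ceil ((q 0 : ℝ) * (q 0 : ℝ) ^ (κ / 2))
    have h3 : (⌈(q 0 : ℝ) * (q 0 : ℝ) ^ (κ / 2)⌉₊ : ℝ) ≤ N := by
      exact_mod_cast (by omega : ⌈(q 0 : ℝ) * (q 0 : ℝ) ^ (κ / 2)⌉₊ ≤ N)
    linarith
  have hN1 : (1 : ℝ) ≤ N := by exact_mod_cast (by omega : 1 ≤ N)
  have hup := upper κ q p hκ hodd h16 h1 hlo hhi hp ξ hξ x N hN0
  have hlog := Real.log_le_rpow_div (x := (N : ℝ)) (by linarith) hεpos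
  have hNε : 1 ≤ (N : ℝ) ^ ε := Real.one_le_rpow hN1 hεpos.le
  have h4 : ‖qs x ξ N‖ ^ 2 ≤ D * ((N : ℝ) ^ s * (N : ℝ) ^ s) := by
    calc ‖qs x ξ N‖ ^ 2 ≤ _ := hup
      _ ≤ 200 * (N : ℝ) ^ (2 * ((κ + 1) / (κ + 2))) * ((N : ℝ) ^ ε + (N : ℝ) ^ ε / ε) := by
          apply mul_le_mul_of_nonneg_left _ (by positivity)
          linarith
      _ = D * ((N : ℝ) ^ (2 * ((κ + 1) / (κ + 2))) * (N : ℝ) ^ ε) := by
          rw [hD]
          ring
      _ = D * ((N : ℝ) ^ s * (N : ℝ) ^ s) := by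
          rw [← Real.rpow_add (by linarith), ← Real.rpow_add (by linarith)]
          congr 2
          rw [hε]
          ring
  rw [Real.norm_of_nonneg (norm_nonneg _), Real.norm_of_nonneg (by positivity)]
  have h5 : D * ((N : ℝ) ^ s * (N : ℝ) ^ s) = (Real.sqrt D * (N : ℝ) ^ s) ^ 2 := by
    rw [mul_pow, Real.sq_sqrt hDpos.le]
    ring
  rw [h5] at h4
  exact le_of_sq_le_sq h4 (by positivity)

theorem q_tendsto (hκ : 0 < κ) (h1 : ∀ k, 1 ≤ q k)
    (hlo : ∀ k, 3 * (q k : ℝ) ^ (1 + κ) ≤ q (k + 1)) :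
    Tendsto (fun k => (q k : ℝ)) atTop atTop := by
  apply tendsto_atTop_mono (f := fun k : ℕ => (k : ℝ))
  · intro k
    have := succ_le_q κ q hκ h1 hlo k
    exact_mod_cast (by omega : k ≤ q k)
  · exact tendsto_natCast_atTop_atTop

theorem lower (hκ : 0 < κ) (hodd : ∀ k, Odd (q k)) (h1 : ∀ k, 1 ≤ q k)
    (hlo : ∀ k, 3 * (q k : ℝ) ^ (1 + κ) ≤ q (k + 1))
    (hp : ∀ k, p (k + 1) * q k - p k * q (k + 1) = 1) (ξ : ℝ)
    (hξ : ∀ k, (p k : ℝ) / q k ≤ ξ ∧ ξ ≤ (p k : ℝ) / q k + 2 / (q k * q (k + 1)))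
    (b : ℕ → ℕ) (x : ℝ)
    (hx : ∀ k, (b k : ℝ) / q k ≤ x ∧ x ≤ (b k : ℝ) / q k + 1 / (4 * (q k * (q k : ℝ) ^ (κ / 2)))) :
    ∀ᶠ k in atTop, ((q k * ⌊(q k : ℝ) ^ (κ / 2) / 16⌋₊ : ℕ) : ℝ) ^ ((κ + 1) / (κ + 2)) / 64 ≤
      ‖qs x ξ (q k * ⌊(q k : ℝ) ^ (κ / 2) / 16⌋₊)‖ := by
  have ht := q_tendsto κ q hκ h1 hlo
  have hev1 : ∀ᶠ y : ℝ in atTop, 11 * 1024 * (1 + Real.log y) ≤ y ^ κ := by
    have h2 := (isLittleO_log_rpow_atTop hκ).bound (show (0 : ℝ) < 1 / (2 * (11 * 1024)) by norm_num)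
    have h3 := tendsto_rpow_atTop hκ
    filter_upwards [h2, h3.eventually_ge_atTop (2 * (11 * 1024)), eventually_ge_atTop 1] with
      y hy1 hy2 hy3
    rw [Real.norm_of_nonneg (Real.log_nonneg hy3), Real.norm_of_nonneg (by positivity)] at hy1
    linarith
  have hev2 : ∀ᶠ y : ℝ in atTop, 32 ≤ y ^ (κ / 2) :=
    (tendsto_rpow_atTop (by positivity : 0 < κ / 2)).eventually_ge_atTop 32
  filter_upwards [ht.eventually hev1, ht.eventually hev2] with k hk1 hk2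
  have ha1 : (1 : ℝ) ≤ q k := by exact_mod_cast h1 k
  have hc1 : (1 : ℝ) ≤ q (k + 1) := by exact_mod_cast h1 (k + 1)
  have hl := hlo k
  obtain ⟨hx1, hx2⟩ := hx k
  obtain ⟨hξ1, hξ2⟩ := hξ k
  have : NeZero (q k) := ⟨by have := h1 k; omega⟩
  set R := (q k : ℝ) ^ (κ / 2) with hR
  set M := ⌊R / 16⌋₊ with hM
  have hRR : (q k : ℝ) ^ κ = R * R := by
    rw [hR, ← Real.rpow_add (by linarith)]
    congr 1
    ring
  have hR1 : (q k : ℝ) ^ (1 + κ) = q k * (R * R) := by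
    rw [Real.rpow_add (by linarith), Real.rpow_one, hRR]
  rw [hR1] at hl
  rw [hRR] at hk1
  have hMle : (M : ℝ) ≤ R / 16 := Nat.floor_le (by positivity)
  have hMge : R / 32 ≤ (M : ℝ) := by
    have := Nat.lt_floor_add_one (R / 16)
    rw [← hM] at this
    linarith
  have hM1 : 1 ≤ M := by
    rw [hM, Nat.one_le_floor_iff]
    linarith
  have hMM : 11 * (1 + Real.log (q k)) ≤ (M : ℝ) ^ 2 := by
    have h5 : (R / 32) ^ 2 ≤ (M : ℝ) ^ 2 := pow_le_pow_left₀ (by positivity) hMge 2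
    have h6 : (R / 32) ^ 2 = R * R / 1024 := by ring
    rw [h6] at h5
    linarith
  set a := (q k : ℝ) with ha
  set c := (q (k + 1) : ℝ) with hc
  have hlow := lower_bound (q k) (hodd k) (p k) (b k) (coprime_pq q p hp k) M hMM hM1
    (x - (b k : ℝ) / a) (ξ - (p k : ℝ) / a)
    (by
      rw [abs_of_nonneg (by linarith), ← ha]
      calc (x - (b k : ℝ) / a) * (a * M) ≤ 1 / (4 * (a * R)) * (a * (R / 16)) := by
            apply mul_le_mul (by linarith) _ (by positivity) (by positivity)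
            exact mul_le_mul_of_nonneg_left hMle (by linarith)
        _ = 1 / 64 := by
            have : R ≠ 0 := by linarith
            field_simp
            norm_num)
    (by
      rw [abs_of_nonneg (by linarith), ← ha]
      calc (ξ - (p k : ℝ) / a) * (a * M) ^ 2 ≤ 2 / (a * c) * (a * (R / 16)) ^ 2 := by
            apply mul_le_mul (by linarith) _ (by positivity) (by positivity)
            apply pow_le_pow_left₀ (by positivity)
            exact mul_le_mul_of_nonneg_left hMle (by linarith)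
        _ ≤ 1 / 256 := by
            rw [div_mul_eq_mul_div, div_le_div_iff₀ (by positivity) (by positivity)]
            have h7 : a * (a * (R * R)) * 3 ≤ a * c := by
              have := mul_le_mul_of_nonneg_left hl (by linarith : 0 ≤ a)
              linarith
            nlinarith)
  have hsum : (∑ n ∈ range (q k * M), e ((((b k : ℤ) : ℝ) / q k + (x - (b k : ℝ) / a)) * (n + 1) +
      ((p k : ℝ) / q k + (ξ - (p k : ℝ) / a)) * (n + 1) ^ 2)) = qs x ξ (q k * M) := by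
    unfold qs
    apply sum_congr rfl
    intro n _
    congr 1
    rw [ha]
    push_cast
    ring
  rw [hsum] at hlow
  refine le_trans ?_ hlow
  have h8 : ((q k * M : ℕ) : ℝ) ^ ((κ + 1) / (κ + 2)) ≤ Real.sqrt a * R := by
    have h9 : ((q k * M : ℕ) : ℝ) ≤ a ^ (1 + κ / 2) := by
      push_cast
      rw [← ha, Real.rpow_add (by linarith), Real.rpow_one]
      apply mul_le_mul_of_nonneg_left _ (by linarith)
      linarith
    calc ((q k * M : ℕ) : ℝ) ^ ((κ + 1) / (κ + 2)) ≤ (a ^ (1 + κ / 2)) ^ ((κ + 1) / (κ + 2)) :=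
          Real.rpow_le_rpow (by positivity) h9 (by positivity)
      _ = Real.sqrt a * R := by
          rw [Real.sqrt_eq_rpow, hR, ← Real.rpow_mul (by linarith), ← Real.rpow_add (by linarith)]
          congr 1
          field_simp
          ring
  have h10 : 0 ≤ Real.sqrt a := Real.sqrt_nonneg _
  have h11 : Real.sqrt a * R ≤ Real.sqrt a * (32 * M) :=
    mul_le_mul_of_nonneg_left (by linarith) h10
  rw [← ha]
  linarith

theorem not_isBigO_of_lt (hκ : 0 < κ) (hodd : ∀ k, Odd (q k))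
    (h16 : ∀ k, 16 ≤ (q k : ℝ) ^ (κ / 2)) (h1 : ∀ k, 1 ≤ q k)
    (hlo : ∀ k, 3 * (q k : ℝ) ^ (1 + κ) ≤ q (k + 1))
    (hp : ∀ k, p (k + 1) * q k - p k * q (k + 1) = 1) (ξ : ℝ)
    (hξ : ∀ k, (p k : ℝ) / q k ≤ ξ ∧ ξ ≤ (p k : ℝ) / q k + 2 / (q k * q (k + 1)))
    (b : ℕ → ℕ) (x : ℝ)
    (hx : ∀ k, (b k : ℝ) / q k ≤ x ∧ x ≤ (b k : ℝ) / q k + 1 / (4 * (q k * (q k : ℝ) ^ (κ / 2))))
    (s : ℝ) (hs : s < (κ + 1) / (κ + 2)) :
    ¬ (fun N : ℕ => ‖qs x ξ N‖) =O[atTop] fun N : ℕ => (N : ℝ) ^ s := by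
  intro hO
  obtain ⟨c, hc⟩ := hO.bound
  set α := (κ + 1) / (κ + 2) with hα
  have hlow := lower κ q p hκ hodd h1 hlo hp ξ hξ b x hx
  have hNt : Tendsto (fun k => q k * ⌊(q k : ℝ) ^ (κ / 2) / 16⌋₊) atTop atTop := by
    apply tendsto_atTop_mono (f := fun k : ℕ => k)
    · intro k
      have h2 := succ_le_q κ q hκ h1 hlo k
      have h3 : 1 ≤ ⌊(q k : ℝ) ^ (κ / 2) / 16⌋₊ := by
        rw [Nat.one_le_floor_iff]
        linarith [h16 k]
      calc k ≤ q k * 1 := by omega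
        _ ≤ _ := Nat.mul_le_mul_left _ h3
    · exact tendsto_id
  have h4 := hNt.eventually hc
  have h5 : Tendsto (fun N : ℕ => (N : ℝ) ^ (α - s)) atTop atTop :=
    (tendsto_rpow_atTop (by linarith : 0 < α - s)).comp tendsto_natCast_atTop_atTop
  have h6 := hNt.eventually (h5.eventually_gt_atTop (64 * c))
  have h7 := hNt.eventually (eventually_ge_atTop 1)
  obtain ⟨k, hk1, hk2, hk3, hk4⟩ := (hlow.and (h4.and (h6.and h7))).exists
  set N := q k * ⌊(q k : ℝ) ^ (κ / 2) / 16⌋₊ with hN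
  have hN1 : (1 : ℝ) ≤ N := by exact_mod_cast hk4
  rw [Real.norm_of_nonneg (norm_nonneg _), Real.norm_of_nonneg (by positivity)] at hk2
  have h8 : (N : ℝ) ^ α = (N : ℝ) ^ (α - s) * (N : ℝ) ^ s := by
    rw [← Real.rpow_add (by linarith)]
    congr 1
    ring
  rw [h8] at hk1
  have h9 : (0 : ℝ) < (N : ℝ) ^ s := by positivity
  have h10 : 64 * c * (N : ℝ) ^ s < (N : ℝ) ^ (α - s) * (N : ℝ) ^ s :=
    mul_lt_mul_of_pos_right hk3 h9
  linarith

end

/-- For every exponent in `(1/2, 1)` there is a coded family of sums with that growth. -/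
theorem exists_family (α : ℝ) (hα : 1 / 2 < α) (hα1 : α < 1) :
    ∃ (x : ℝ → ℝ) (ξ C r : ℝ), 0 < C ∧ 0 < r ∧ 0 ≤ ξ ∧ ξ < 1 ∧
      (∀ t ∈ Set.Ico (0 : ℝ) 1, ∀ t' ∈ Set.Ico (0 : ℝ) 1, |t - t'| ≤ C * |x t - x t'| ^ r) ∧
      (∀ t, 0 ≤ x t ∧ x t < 1) ∧
      (∀ t, ∀ s, α < s → (fun N : ℕ => ‖qs (x t) ξ N‖) =O[atTop] fun N : ℕ => (N : ℝ) ^ s) ∧
      (∀ t, ∀ s, s < α → ¬ (fun N : ℕ => ‖qs (x t) ξ N‖) =O[atTop] fun N : ℕ => (N : ℝ) ^ s) := by
  set κ : ℝ := 1 / (1 - α) - 2 with hκdef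
  have h1α : 0 < 1 - α := by linarith
  have hκ : 0 < κ := by
    rw [hκdef, sub_pos, lt_div_iff₀ h1α]
    linarith
  have hακ : (κ + 1) / (κ + 2) = α := by
    rw [hκdef]
    field_simp
    ring
  obtain ⟨y, hy⟩ : ∃ y : ℕ, 16 ≤ (y : ℝ) ^ (κ / 2) := by
    have h2 := (tendsto_rpow_atTop (by positivity : 0 < κ / 2)).comp
      (tendsto_natCast_atTop_atTop (R := ℝ))
    exact (h2.eventually_ge_atTop 16).exists
  set Q : ℕ := 2 * y + 3 with hQ
  obtain ⟨q, p, hq0, hp0, hodd, hQq, hlo, hhi, hp⟩ :=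
    exists_seq κ hκ Q ⟨y + 1, by omega⟩ (by omega)
  have h1 : ∀ k, 1 ≤ q k := fun k => by have := hQq k; omega
  have h16 : ∀ k, 16 ≤ (q k : ℝ) ^ (κ / 2) := by
    intro k
    refine hy.trans (Real.rpow_le_rpow (by positivity) ?_ (by positivity))
    have := hQq k
    exact_mod_cast (by omega : y ≤ q k)
  obtain ⟨ξ, hξ⟩ := exists_xi κ q p hκ h1 hlo hp
  obtain ⟨x, hx⟩ := exists_coded κ q h16 h1 hlo
  obtain ⟨C, r, hC, hr, hhol⟩ := coded_holder κ q hκ h16 h1 hhi x hx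
  have hq0' : (3 : ℝ) ≤ q 0 := by
    have := hQq 0
    exact_mod_cast (by omega : 3 ≤ q 0)
  have hq1' : (3 : ℝ) ≤ q 1 := by
    have := hQq 1
    exact_mod_cast (by omega : 3 ≤ q 1)
  refine ⟨x, ξ, C, r, hC, hr, ?_, ?_, hhol, ?_, ?_, ?_⟩
  · have h2 := (hξ 0).1
    rw [hp0] at h2
    refine le_trans ?_ h2
    positivity
  · have h2 := (hξ 0).2
    rw [hp0] at h2
    refine lt_of_le_of_lt h2 ?_
    have h3 : ((1 : ℤ) : ℝ) / q 0 ≤ 1 / 3 := by
      push_cast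
      exact one_div_le_one_div_of_le (by norm_num) hq0'
    have h4 : 2 / ((q 0 : ℝ) * q (0 + 1)) ≤ 2 / 9 := by
      apply div_le_div_of_nonneg_left (by norm_num) (by norm_num)
      rw [zero_add]
      nlinarith
    linarith
  · intro t
    obtain ⟨h2, h3⟩ := hx t 0
    simp only [bb, Nat.cast_zero, zero_div] at h2 h3
    refine ⟨h2, lt_of_le_of_lt h3 ?_⟩
    rw [zero_add, div_lt_one (by positivity)]
    have := h16 0
    nlinarith
  · intro t s hs
    exact isBigO_of_gt κ q p hκ hodd h16 h1 hlo hhi hp ξ hξ (x t) s (by rw [hακ]; exact hs)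
  · intro t s hs
    exact not_isBigO_of_lt κ q p hκ hodd h16 h1 hlo hp ξ hξ (bb κ q t) (x t) (hx t) s
      (by rw [hακ]; exact hs)

end Pool.Agent.H639R3.W
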